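import Mathlib

set_option autoImplicit false

namespace Pool.Agent.H.MP_be0572_gt
open Set Filter Topology

abbrev X := Fin 3 → ℝ
abbrev Af := ℝ × (Fin 3 → ℝ)

def ev (p : Af) (x : X) : ℝ := p.1 + ∑ i, p.2 i * x i

lemma ev_add (p q : Af) (x : X) : ev (p + q) x = ev p x + ev q x := by
  simp only [ev, Prod.fst_add, Prod.snd_add, Pi.add_apply, add_mul, Finset.sum_add_distrib]
  ring

lemma ev_smul (c : ℝ) (p : Af) (x : X) : ev (c • p) x = c * ev p x := by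
  simp only [ev, Prod.smul_fst, Prod.smul_snd, Pi.smul_apply, smul_eq_mul, mul_add,
    Finset.mul_sum, mul_assoc]

lemma ev_const (c : ℝ) (x : X) : ev (c, 0) x = c := by simp [ev]

lemma ev_zero (x : X) : ev 0 x = 0 := by simp [ev]

lemma ev_coord (i : Fin 3) (x : X) : ev (0, Pi.single i 1) x = x i := by
  simp only [ev, zero_add]
  rw [Finset.sum_eq_single i]
  · simp
  · intro j _ hj
    simp [Pi.single_apply, hj]
  · simp

/-- pointwise equal to one of countably many affine functions on S -/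
def SA (S : Set X) (φ : X → ℝ) : Prop :=
  ∃ A : Set Af, A.Countable ∧ ∀ x ∈ S, ∃ p ∈ A, φ x = ev p x

/-- covered by the zero sets of countably many non-zero affine functions -/
def Planar (S : Set X) : Prop :=
  ∃ A : Set Af, A.Countable ∧ (∀ p ∈ A, p ≠ 0) ∧ ∀ x ∈ S, ∃ p ∈ A, ev p x = 0

variable {S : Set X} {φ ψ : X → ℝ}

lemma SA.mono {T : Set X} (h : SA S φ) (hT : T ⊆ S) : SA T φ := by
  obtain ⟨A, hA, h⟩ := h
  exact ⟨A, hA, fun x hx => h x (hT hx)⟩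

lemma SA.ctble (Λ : Set ℝ) (hΛ : Λ.Countable) (h : ∀ x ∈ S, φ x ∈ Λ) : SA S φ :=
  ⟨(fun c => ((c, 0) : Af)) '' Λ, hΛ.image _, fun x hx =>
    ⟨(φ x, 0), ⟨φ x, h x hx, rfl⟩, (ev_const _ _).symm⟩⟩

lemma SA.const (c : ℝ) : SA S (fun _ => c) :=
  SA.ctble {c} (countable_singleton c) (fun _ _ => rfl)

lemma SA.coord (i : Fin 3) : SA S (fun x => x i) :=
  ⟨{(0, Pi.single i 1)}, countable_singleton _, fun x _ => ⟨_, rfl, (ev_coord i x).symm⟩⟩

lemma SA.add (h1 : SA S φ) (h2 : SA S ψ) : SA S (fun x => φ x + ψ x) := by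
  obtain ⟨A, hA, h1⟩ := h1
  obtain ⟨B, hB, h2⟩ := h2
  refine ⟨image2 (· + ·) A B, hA.image2 hB _, fun x hx => ?_⟩
  obtain ⟨p, hp, e1⟩ := h1 x hx
  obtain ⟨q, hq, e2⟩ := h2 x hx
  exact ⟨p + q, mem_image2_of_mem hp hq, by rw [ev_add, ← e1, ← e2]⟩

lemma SA.cmul (c : ℝ) (h1 : SA S φ) : SA S (fun x => c * φ x) := by
  obtain ⟨A, hA, h1⟩ := h1
  refine ⟨(fun p => c • p) '' A, hA.image _, fun x hx => ?_⟩
  obtain ⟨p, hp, e1⟩ := h1 x hx
  exact ⟨c • p, mem_image_of_mem _ hp, by rw [ev_smul, ← e1]⟩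

lemma SA.of_iUnion (f : ℕ → X → ℝ) (hf : ∀ n, SA S (f n)) (h : ∀ x ∈ S, ∃ n, φ x = f n x) :
    SA S φ := by
  choose A hA hf using hf
  refine ⟨⋃ n, A n, countable_iUnion hA, fun x hx => ?_⟩
  obtain ⟨n, e⟩ := h x hx
  obtain ⟨p, hp, e1⟩ := hf n x hx
  exact ⟨p, mem_iUnion.2 ⟨n, hp⟩, e.trans e1⟩

lemma SA.of_or {χ : X → ℝ} (h1 : SA S φ) (h2 : SA S ψ) (h : ∀ x ∈ S, χ x = φ x ∨ χ x = ψ x) :
    SA S χ := by
  obtain ⟨A, hA, h1⟩ := h1
  obtain ⟨B, hB, h2⟩ := h2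
  refine ⟨A ∪ B, hA.union hB, fun x hx => ?_⟩
  obtain ⟨p, hp, e1⟩ := h1 x hx
  obtain ⟨q, hq, e2⟩ := h2 x hx
  rcases h x hx with e | e
  · exact ⟨p, Or.inl hp, e.trans e1⟩
  · exact ⟨q, Or.inr hq, e.trans e2⟩

lemma SA.congr (h1 : SA S φ) (h : ∀ x ∈ S, ψ x = φ x) : SA S ψ :=
  SA.of_or h1 h1 (fun x hx => Or.inl (h x hx))

lemma SA.neg (h1 : SA S φ) : SA S (fun x => - φ x) :=
  (h1.cmul (-1)).congr (fun x _ => by ring)

lemma SA.sub (h1 : SA S φ) (h2 : SA S ψ) : SA S (fun x => φ x - ψ x) :=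
  (h1.add h2.neg).congr (fun x _ => by ring)

lemma SA.div (c : ℝ) (h1 : SA S φ) : SA S (fun x => φ x / c) :=
  (h1.cmul c⁻¹).congr (fun x _ => by ring)

lemma SA.max (h1 : SA S φ) (h2 : SA S ψ) : SA S (fun x => max (φ x) (ψ x)) :=
  SA.of_or h1 h2 (fun x _ => max_choice _ _)

lemma SA.min (h1 : SA S φ) (h2 : SA S ψ) : SA S (fun x => min (φ x) (ψ x)) :=
  SA.of_or h1 h2 (fun x _ => min_choice _ _)

lemma SA.abs (h1 : SA S φ) : SA S (fun x => |φ x|) :=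
  SA.of_or h1 h1.neg (fun x _ => abs_choice _)

lemma SA.fract (h1 : SA S φ) : SA S (fun x => Int.fract (φ x)) := by
  have : SA S (fun x => ((⌊φ x⌋ : ℤ) : ℝ)) :=
    SA.ctble (range (fun n : ℤ => (n : ℝ))) (countable_range _) (fun x _ => ⟨_, rfl⟩)
  exact (h1.sub this).congr (fun x _ => rfl)

lemma dist3 (x c : X) : dist x c = max |x 0 - c 0| (max |x 1 - c 1| |x 2 - c 2|) := by
  apply le_antisymm
  · rw [dist_pi_le_iff (by positivity)]
    intro i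
    rw [Real.dist_eq]
    fin_cases i
    · exact le_max_left _ _
    · exact (le_max_left _ _).trans (le_max_right _ _)
    · exact (le_max_right _ _).trans (le_max_right _ _)
  · refine max_le ?_ (max_le ?_ ?_)
    · exact (Real.dist_eq _ _).symm.le.trans (dist_le_pi_dist x c 0)
    · exact (Real.dist_eq _ _).symm.le.trans (dist_le_pi_dist x c 1)
    · exact (Real.dist_eq _ _).symm.le.trans (dist_le_pi_dist x c 2)

lemma SA.dist (c : X) : SA S (fun x => dist x c) :=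
  (((SA.coord 0).sub (SA.const (c 0))).abs.max (((SA.coord 1).sub (SA.const (c 1))).abs.max
    ((SA.coord 2).sub (SA.const (c 2))).abs)).congr (fun x _ => dist3 x c)

lemma Planar.mono {T : Set X} (h : Planar S) (hT : T ⊆ S) : Planar T := by
  obtain ⟨A, hA, h0, h⟩ := h
  exact ⟨A, hA, h0, fun x hx => h x (hT hx)⟩

lemma Planar.empty : Planar ∅ := ⟨∅, countable_empty, by simp, by simp⟩

lemma Planar.iUnion {ι : Type} [Countable ι] (f : ι → Set X) (hf : ∀ n, Planar (f n)) :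
    Planar (⋃ n, f n) := by
  choose A hA h0 hf using hf
  refine ⟨⋃ n, A n, countable_iUnion hA, ?_, ?_⟩
  · intro p hp
    obtain ⟨n, hn⟩ := mem_iUnion.1 hp
    exact h0 n p hn
  · intro x hx
    obtain ⟨n, hn⟩ := mem_iUnion.1 hx
    obtain ⟨p, hp, e⟩ := hf n x hn
    exact ⟨p, mem_iUnion.2 ⟨n, hp⟩, e⟩

lemma Planar.union {T : Set X} (h1 : Planar S) (h2 : Planar T) : Planar (S ∪ T) := by
  rw [union_eq_iUnion]
  refine Planar.iUnion _ (fun b => ?_)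
  cases b
  · exact h2
  · exact h1

lemma exists_avoid (B : Set ℝ) (hB : B.Countable) {a b : ℝ} (hab : a < b) :
    ∃ w, a < w ∧ w < b ∧ w ∉ B := by
  obtain ⟨w, hw1, hw2⟩ := (hB.dense_compl ℝ).inter_open_nonempty (Ioo a b) isOpen_Ioo
    (nonempty_Ioo.2 hab)
  exact ⟨w, hw1.1, hw1.2, hw2⟩

lemma generic (h1 : SA S φ) (h2 : SA S ψ) (Λ : Set ℝ) (hΛ : Λ.Countable) {a b : ℝ}
    (hab : a < b) :
    ∃ w, a < w ∧ w < b ∧ Planar {x | x ∈ S ∧ ψ x ≠ 0 ∧ φ x + w * ψ x ∈ Λ} := by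
  obtain ⟨A, hA, h1⟩ := h1
  obtain ⟨B, hB, h2⟩ := h2
  have hbad : (⋃ p ∈ A, ⋃ q ∈ B, ⋃ l ∈ Λ,
      {w : ℝ | q ≠ 0 ∧ p + w • q + ((-l, 0) : Af) = 0}).Countable := by
    refine hA.biUnion (fun p _ => hB.biUnion (fun q _ => hΛ.biUnion (fun l _ => ?_)))
    apply Set.Subsingleton.countable
    rintro w ⟨hq, e1⟩ w' ⟨_, e2⟩
    have e3 : w • q = w' • q := by
      have := e1.trans e2.symm
      exact add_left_cancel (add_right_cancel this)
    exact smul_left_injective ℝ hq e3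
  obtain ⟨w, hw1, hw2, hw⟩ := exists_avoid _ hbad hab
  refine ⟨w, hw1, hw2, (image2 (fun (pq : Af × Af) (l : ℝ) => pq.1 + w • pq.2 + ((-l, 0) : Af))
    (A ×ˢ (B \ {0})) Λ), ((hA.prod (hB.mono diff_subset)).image2 hΛ _), ?_, ?_⟩
  · rintro _ ⟨⟨p, q⟩, ⟨hp, hq, hq0⟩, l, hl, rfl⟩ e
    apply hw
    simp only [mem_iUnion]
    exact ⟨p, hp, q, hq, l, hl, hq0, e⟩
  · rintro x ⟨hx, hne, hl⟩
    obtain ⟨p, hp, e1⟩ := h1 x hx
    obtain ⟨q, hq, e2⟩ := h2 x hx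
    have hq0 : q ≠ 0 := by
      rintro rfl
      exact hne (e2.trans (ev_zero x))
    refine ⟨_, ⟨(p, q), ⟨hp, hq, hq0⟩, _, hl, rfl⟩, ?_⟩
    simp only [ev_add, ev_smul, ev_const, ← e1, ← e2]
    ring

lemma bump (K : Set X) (hK : IsClosed K) (Q : X → ℝ → Prop)
    (hmono : ∀ z d d', Q z d → 0 < d' → d' ≤ d → Q z d')
    (hloc : ∀ z0 ∉ K, ∃ d > 0, ∀ᶠ z in 𝓝 z0, Q z d) :
    ∃ ρ : X → ℝ, Continuous ρ ∧ SA univ ρ ∧ (∀ x, 0 ≤ ρ x) ∧ (∀ x, ρ x ≤ 1) ∧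
      (∀ x ∈ K, ρ x = 0) ∧ (∀ x ∉ K, 0 < ρ x) ∧ ∀ x ∉ K, Q x (ρ x) := by
  have h1 : ∀ z0 : X, ∃ r > 0, ∃ d > 0, z0 ∉ K → ∀ z, dist z z0 < r → z ∉ K ∧ Q z d := by
    intro z0
    by_cases hz : z0 ∈ K
    · exact ⟨1, one_pos, 1, one_pos, fun h => absurd hz h⟩
    obtain ⟨d, hd, hev⟩ := hloc z0 hz
    have h2 : ∀ᶠ z in 𝓝 z0, z ∉ K := hK.isOpen_compl.mem_nhds hz
    obtain ⟨r, hr, h3⟩ := Metric.eventually_nhds_iff.1 (h2.and hev)
    exact ⟨r, hr, d, hd, fun _ z hz' => h3 hz'⟩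
  choose r hr d hd h1 using h1
  obtain ⟨t, ht, htc, hcov⟩ := TopologicalSpace.countable_cover_nhdsWithin
    (f := fun z => Metric.ball z (r z)) (s := Kᶜ)
    (fun z _ => mem_nhdsWithin_of_mem_nhds (Metric.ball_mem_nhds z (hr z)))
  rcases t.eq_empty_or_nonempty with rfl | hne
  · have hall : ∀ x, x ∈ K := by
      intro x
      by_contra hx
      simpa using hcov hx
    exact ⟨fun _ => 0, continuous_const, SA.const 0, fun _ => le_rfl, fun _ => zero_le_one,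
      fun _ _ => rfl, fun x hx => absurd (hall x) hx, fun x hx => absurd (hall x) hx⟩
  obtain ⟨c, hc⟩ := htc.exists_eq_range hne
  have hcK : ∀ j, c j ∉ K := fun j => ht (hc ▸ mem_range_self j)
  set φ : ℕ → X → ℝ := fun j x =>
    min (min (d (c j)) ((1 / 2) ^ j)) (max 0 (r (c j) - dist x (c j))) with hφ
  have hφ0 : ∀ j x, 0 ≤ φ j x := fun j x =>
    le_min (le_min (hd _).le (by positivity)) (le_max_left _ _)
  have hφ1 : ∀ j x, φ j x ≤ (1 / 2) ^ j := fun j x => (min_le_left _ _).trans (min_le_right _ _)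
  have hφ2 : ∀ j x, φ j x ≤ 1 := fun j x =>
    (hφ1 j x).trans (pow_le_one₀ (by norm_num) (by norm_num))
  have hφd : ∀ j x, φ j x ≤ d (c j) := fun j x => (min_le_left _ _).trans (min_le_left _ _)
  have hφpos : ∀ j x, 0 < φ j x ↔ dist x (c j) < r (c j) := by
    intro j x
    simp only [hφ, lt_min_iff, lt_max_iff, lt_irrefl, false_or, sub_pos]
    exact ⟨fun h => h.2, fun h => ⟨⟨hd _, by positivity⟩, h⟩⟩
  have hφL : ∀ j x y, φ j x ≤ φ j y + dist x y := by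
    intro j x y
    have e1 := dist_triangle y x (c j)
    have e2 := dist_comm x y
    have e3 : (0 : ℝ) ≤ dist x y := dist_nonneg
    simp only [hφ]
    generalize min (d (c j)) ((1 / 2 : ℝ) ^ j) = m
    rcases min_cases m (max 0 (r (c j) - dist y (c j))) with ⟨e, _⟩ | ⟨e, _⟩
    · rw [e]
      linarith [min_le_left m (max 0 (r (c j) - dist x (c j)))]
    · rw [e]
      refine (min_le_right _ _).trans (max_le ?_ ?_)
      · linarith [le_max_left 0 (r (c j) - dist y (c j))]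
      · linarith [le_max_right 0 (r (c j) - dist y (c j))]
  have hbdd : ∀ x, BddAbove (range fun j => φ j x) := fun x =>
    ⟨1, by rintro _ ⟨j, rfl⟩; exact hφ2 j x⟩
  set ρ : X → ℝ := fun x => ⨆ j, φ j x with hρ
  have hle : ∀ j x, φ j x ≤ ρ x := fun j x => le_ciSup (hbdd x) j
  have hatt : ∀ x, ∃ j, ρ x = φ j x := by
    intro x
    by_cases h0 : ∀ j, φ j x ≤ 0
    · exact ⟨0, le_antisymm ((ciSup_le h0).trans (hφ0 0 x)) (hle 0 x)⟩
    push Not at h0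
    obtain ⟨j0, hj0⟩ := h0
    obtain ⟨N, hN⟩ := exists_pow_lt_of_lt_one hj0 (show (1 / 2 : ℝ) < 1 by norm_num)
    obtain ⟨j, -, hj⟩ := (Finset.range (N + j0 + 1)).exists_max_image (fun j => φ j x)
      ⟨0, by simp⟩
    refine ⟨j, le_antisymm (ciSup_le fun i => ?_) (hle j x)⟩
    by_cases hi : i < N + j0 + 1
    · exact hj i (Finset.mem_range.2 hi)
    · have e1 : ((1 / 2 : ℝ)) ^ i ≤ (1 / 2) ^ N :=
        pow_le_pow_of_le_one (by norm_num) (by norm_num) (by omega)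
      have e2 := hj j0 (Finset.mem_range.2 (by omega))
      linarith [hφ1 i x]
  have hpos : ∀ x ∉ K, 0 < ρ x := by
    intro x hx
    have := hcov hx
    simp only [mem_iUnion] at this
    obtain ⟨z, hz, hxz⟩ := this
    rw [hc] at hz
    obtain ⟨j, rfl⟩ := hz
    exact ((hφpos j x).2 hxz).trans_le (hle j x)
  refine ⟨ρ, ?_, ?_, fun x => (hφ0 0 x).trans (hle 0 x), fun x => ciSup_le fun j => hφ2 j x,
    ?_, hpos, ?_⟩
  · have : LipschitzWith 1 ρ := LipschitzWith.of_le_add fun x y =>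
      ciSup_le fun j => (hφL j x y).trans (by linarith [hle j y])
    exact this.continuous
  · refine SA.of_iUnion φ (fun j => ?_) (fun x _ => hatt x)
    exact (SA.const _).min ((SA.const 0).max ((SA.const _).sub (SA.dist _)))
  · intro x hx
    obtain ⟨j, hj⟩ := hatt x
    rw [hj]
    refine le_antisymm (not_lt.1 fun h => ?_) (hφ0 j x)
    exact (h1 _ (hcK j) x ((hφpos j x).1 h)).1 hx
  · intro x hx
    obtain ⟨j, hj⟩ := hatt x
    have h2 := hpos x hx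
    rw [hj] at h2 ⊢
    exact hmono x _ _ (h1 _ (hcK j) x ((hφpos j x).1 h2)).2 h2 (hφd j x)

end Pool.Agent.H.MP_be0572_gt
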