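import Pool.Agent.H.MP_be0572_gt.A

set_option autoImplicit false

namespace Pool.Agent.H.MP_be0572_gt
open Set Filter Topology

noncomputable def cl (t c : ℝ) : ℝ := max (-c) (min c t)

lemma cl_cases (t : ℝ) {c : ℝ} (hc : 0 ≤ c) :
    (cl t c = t ∧ -c ≤ t ∧ t ≤ c) ∨ (cl t c = c ∧ c ≤ t) ∨ (cl t c = -c ∧ t ≤ -c) := by
  unfold cl
  rcases le_total t (-c) with h | h
  · right; right
    exact ⟨by rw [min_eq_right (by linarith), max_eq_left h], h⟩
  rcases le_total c t with h' | h'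
  · right; left
    exact ⟨by rw [min_eq_left h', max_eq_right (by linarith)], h'⟩
  · left
    exact ⟨by rw [min_eq_right h', max_eq_right h], h, h'⟩

lemma cl_abs (t : ℝ) {c : ℝ} (hc : 0 ≤ c) : |cl t c| ≤ c := by
  rw [abs_le]
  rcases cl_cases t hc with ⟨e, _, _⟩ | ⟨e, _⟩ | ⟨e, _⟩ <;> rw [e] <;> constructor <;> linarith

lemma cl_abs' (t : ℝ) {c : ℝ} (hc : 0 ≤ c) : |cl t c| ≤ |t| := by
  have h1 := le_abs_self t
  have h2 := neg_abs_le t
  rw [abs_le]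
  rcases cl_cases t hc with ⟨e, _, _⟩ | ⟨e, _⟩ | ⟨e, _⟩ <;> rw [e] <;> constructor <;> linarith

lemma cl_self {t c : ℝ} (h : |t| ≤ c) : cl t c = t := by
  rw [abs_le] at h
  unfold cl
  rw [min_eq_right h.2, max_eq_right h.1]

lemma cl_zero (t : ℝ) : cl t 0 = 0 := by
  have := cl_abs t (le_refl 0)
  exact abs_nonpos_iff.1 this

@[fun_prop]
lemma cl_cont {α : Type} [TopologicalSpace α] {f g : α → ℝ} (hf : Continuous f)
    (hg : Continuous g) : Continuous fun x => cl (f x) (g x) := by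
  unfold cl
  fun_prop

lemma SA.cl {S : Set X} {φ ψ : X → ℝ} (h1 : SA S φ) (h2 : SA S ψ) :
    SA S (fun x => cl (φ x) (ψ x)) := h2.neg.max (h2.min h1)

noncomputable def ee (a b : ℝ) : ℝ := 1 - max |a| |b|
noncomputable def p1 (a b : ℝ) : ℝ := cl (a - cl a (ee a b) - cl (4 * b) (4 * ee a b)) 1
noncomputable def p2 (a b : ℝ) : ℝ := cl (b + cl (4 * a) (4 * ee a b)) 1
noncomputable def ex (a b : ℝ) : ℝ := a + cl (7 * a) (ee a b)
noncomputable def t1 (a b : ℝ) : ℝ := ex (p1 a b) (p2 a b)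
noncomputable def t2 (a b : ℝ) : ℝ := ex (p2 a b) (p1 a b)

lemma ee_comm (a b : ℝ) : ee a b = ee b a := by unfold ee; rw [max_comm]

lemma ee_nonneg {a b : ℝ} (ha : |a| ≤ 1) (hb : |b| ≤ 1) : 0 ≤ ee a b := by
  unfold ee
  linarith [max_le ha hb]

lemma ex_abs {a b : ℝ} (ha : |a| ≤ 1) (hb : |b| ≤ 1) : |ex a b| ≤ 1 := by
  have h1 := cl_abs (7 * a) (ee_nonneg ha hb)
  have h2 := abs_add_le a (cl (7 * a) (ee a b))
  have h3 : ee a b ≤ 1 - |a| := by unfold ee; linarith [le_max_left |a| |b|]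
  unfold ex
  linarith

lemma ex_big {a b : ℝ} (ha : |a| ≤ 1) (hab : |b| ≤ |a|) (h : |ex a b| < 1) : |a| < 1 / 8 := by
  have he : ee a b = 1 - |a| := by unfold ee; rw [max_eq_left hab]
  have h0 : 0 ≤ ee a b := by linarith
  unfold ex at h
  rw [abs_lt] at h
  rcases cl_cases (7 * a) h0 with ⟨e, _, _⟩ | ⟨e, _⟩ | ⟨e, _⟩ <;> rw [e] at h <;>
    rcases abs_cases a with ⟨e', _⟩ | ⟨e', _⟩ <;> linarith [h.1, h.2]

lemma ex_small {a b : ℝ} (ha : |a| < 1 / 8) (hb : |b| < 1 / 8) : ex a b = 8 * a := by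
  unfold ex
  rw [cl_self]
  · ring
  · rw [abs_mul, abs_of_pos (show (0 : ℝ) < 7 by norm_num)]
    unfold ee
    linarith [max_lt ha hb]

lemma p_key {a b : ℝ} (ha : |a| ≤ 1) (hb : |b| ≤ 1) (h1 : |p1 a b| < 1 / 8)
    (h2 : |p2 a b| < 1 / 8) : |b| ≤ 4 * |p1 a b| := by
  have h0 := ee_nonneg ha hb
  have h4 : 0 ≤ 4 * ee a b := by linarith
  have he : (ee a b = 1 - a ∨ ee a b = 1 + a ∨ ee a b = 1 - b ∨ ee a b = 1 + b) := by
    unfold ee
    rcases max_choice |a| |b| with e | e <;> rw [e]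
    · rcases abs_choice a with e' | e' <;> rw [e'] <;> simp
    · rcases abs_choice b with e' | e' <;> rw [e'] <;> simp
  have e1 : p1 a b = a - cl a (ee a b) - cl (4 * b) (4 * ee a b) := by
    unfold p1 at h1 ⊢
    rw [abs_lt] at h1
    rcases cl_cases (a - cl a (ee a b) - cl (4 * b) (4 * ee a b)) zero_le_one with
      ⟨e, _, _⟩ | ⟨e, _⟩ | ⟨e, _⟩
    · exact e
    · linarith [h1.2]
    · linarith [h1.1]
  have e2 : p2 a b = b + cl (4 * a) (4 * ee a b) := by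
    unfold p2 at h2 ⊢
    rw [abs_lt] at h2
    rcases cl_cases (b + cl (4 * a) (4 * ee a b)) zero_le_one with
      ⟨e, _, _⟩ | ⟨e, _⟩ | ⟨e, _⟩
    · exact e
    · linarith [h2.2]
    · linarith [h2.1]
  have h5 := le_abs_self (p1 a b)
  have h6 := neg_abs_le (p1 a b)
  obtain ⟨h21, h22⟩ := abs_lt.1 h2
  have c1 := cl_cases a h0
  have c2 := cl_cases (4 * b) h4
  have c3 := cl_cases (4 * a) h4
  generalize cl a (ee a b) = x1 at *
  generalize cl (4 * b) (4 * ee a b) = x2 at *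
  generalize cl (4 * a) (4 * ee a b) = x3 at *
  generalize ee a b = e at *
  generalize |p1 a b| = m at *
  rw [abs_le]
  rcases c1 with ⟨_, _, _⟩ | ⟨_, _⟩ | ⟨_, _⟩ <;> rcases c2 with ⟨_, _, _⟩ | ⟨_, _⟩ | ⟨_, _⟩ <;>
    rcases c3 with ⟨_, _, _⟩ | ⟨_, _⟩ | ⟨_, _⟩ <;> rcases he with _ | _ | _ | _ <;>
    constructor <;> linarith

lemma p1_abs (a b : ℝ) : |p1 a b| ≤ 1 := cl_abs _ zero_le_one
lemma p2_abs (a b : ℝ) : |p2 a b| ≤ 1 := cl_abs _ zero_le_one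
lemma t1_abs (a b : ℝ) : |t1 a b| ≤ 1 := ex_abs (p1_abs a b) (p2_abs a b)
lemma t2_abs (a b : ℝ) : |t2 a b| ≤ 1 := ex_abs (p2_abs a b) (p1_abs a b)

lemma t_key {a b : ℝ} (ha : |a| ≤ 1) (hb : |b| ≤ 1) (h1 : |t1 a b| < 1) (h2 : |t2 a b| < 1) :
    2 * |b| ≤ |t1 a b| := by
  have h3 : |p1 a b| < 1 / 8 ∧ |p2 a b| < 1 / 8 := by
    rcases le_total |p1 a b| |p2 a b| with h | h
    · have := ex_big (p2_abs a b) h h2
      exact ⟨h.trans_lt this, this⟩
    · have := ex_big (p1_abs a b) h h1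
      exact ⟨this, h.trans_lt this⟩
  have h4 := p_key ha hb h3.1 h3.2
  unfold t1
  rw [ex_small h3.1 h3.2, abs_mul, abs_of_pos (show (0 : ℝ) < 8 by norm_num)]
  linarith

lemma t_bdry {a b : ℝ} (ha : |a| ≤ 1) (hb : |b| ≤ 1) (h : |a| = 1 ∨ |b| = 1) :
    t1 a b = a ∧ t2 a b = b := by
  have he : ee a b = 0 := by
    unfold ee
    rcases h with h | h
    · rw [h, max_eq_left hb, sub_self]
    · rw [h, max_eq_right ha, sub_self]
  have e1 : p1 a b = a := by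
    unfold p1
    rw [he, mul_zero, cl_zero, cl_zero, sub_zero, sub_zero, cl_self ha]
  have e2 : p2 a b = b := by
    unfold p2
    rw [he, mul_zero, cl_zero, add_zero, cl_self hb]
  unfold t1 t2 ex
  rw [e1, e2, ee_comm b a, he, cl_zero, cl_zero, add_zero, add_zero]
  exact ⟨rfl, rfl⟩

section
variable {α : Type} [TopologicalSpace α] {f g : α → ℝ}

@[fun_prop]
lemma t1_cont (hf : Continuous f) (hg : Continuous g) : Continuous fun x => t1 (f x) (g x) := by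
  unfold t1 ex p1 p2 ee
  fun_prop

@[fun_prop]
lemma t2_cont (hf : Continuous f) (hg : Continuous g) : Continuous fun x => t2 (f x) (g x) := by
  unfold t2 ex p1 p2 ee
  fun_prop
end

section
variable {S : Set X} {φ ψ : X → ℝ}

lemma SA.ee (h1 : SA S φ) (h2 : SA S ψ) : SA S (fun x => ee (φ x) (ψ x)) :=
  (SA.const 1).sub (h1.abs.max h2.abs)

lemma SA.p1 (h1 : SA S φ) (h2 : SA S ψ) : SA S (fun x => p1 (φ x) (ψ x)) :=
  ((h1.sub (h1.cl (h1.ee h2))).sub ((h2.cmul 4).cl ((h1.ee h2).cmul 4))).cl (SA.const 1)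

lemma SA.p2 (h1 : SA S φ) (h2 : SA S ψ) : SA S (fun x => p2 (φ x) (ψ x)) :=
  (h2.add ((h1.cmul 4).cl ((h1.ee h2).cmul 4))).cl (SA.const 1)

lemma SA.ex (h1 : SA S φ) (h2 : SA S ψ) : SA S (fun x => ex (φ x) (ψ x)) :=
  h1.add ((h1.cmul 7).cl (h1.ee h2))

lemma SA.t1 (h1 : SA S φ) (h2 : SA S ψ) : SA S (fun x => t1 (φ x) (ψ x)) :=
  (h1.p1 h2).ex (h1.p2 h2)

lemma SA.t2 (h1 : SA S φ) (h2 : SA S ψ) : SA S (fun x => t2 (φ x) (ψ x)) :=
  (h1.p2 h2).ex (h1.p1 h2)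
end

noncomputable def d1 (s t : ℝ) : ℝ := (t1 (2 * s - 1) (2 * t - 1) - (2 * s - 1)) / 2
noncomputable def d2 (s t : ℝ) : ℝ := (t2 (2 * s - 1) (2 * t - 1) - (2 * t - 1)) / 2
noncomputable def tw1 (a b : ℝ) : ℝ := a + d1 (Int.fract a) (Int.fract b)
noncomputable def tw2 (a b : ℝ) : ℝ := b + d2 (Int.fract a) (Int.fract b)

lemma nrm_abs {s : ℝ} (h0 : 0 ≤ s) (h1 : s ≤ 1) : |2 * s - 1| ≤ 1 := by
  rw [abs_le]; constructor <;> linarith

lemma nrm_one {s : ℝ} (h : s = 0 ∨ s = 1) : |2 * s - 1| = 1 := by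
  rcases h with rfl | rfl <;> norm_num

lemma d_bdry {s t : ℝ} (hs0 : 0 ≤ s) (hs1 : s ≤ 1) (ht0 : 0 ≤ t) (ht1 : t ≤ 1)
    (h : (s = 0 ∨ s = 1) ∨ (t = 0 ∨ t = 1)) : d1 s t = 0 ∧ d2 s t = 0 := by
  have := t_bdry (nrm_abs hs0 hs1) (nrm_abs ht0 ht1) (h.imp nrm_one nrm_one)
  unfold d1 d2
  rw [this.1, this.2]
  simp

lemma per_cont (D : ℝ → ℝ → ℝ) (hD : Continuous fun y : ℝ × ℝ => D y.1 y.2)
    (h0 : ∀ s t, 0 ≤ s → s ≤ 1 → 0 ≤ t → t ≤ 1 → (s = 0 ∨ s = 1) ∨ (t = 0 ∨ t = 1) → D s t = 0) :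
    Continuous fun y : ℝ × ℝ => D (Int.fract y.1) (Int.fract y.2) := by
  have hp : ∀ s : ℝ, 0 ≤ max 0 (min 1 s) ∧ max 0 (min 1 s) ≤ 1 := fun s =>
    ⟨le_max_left _ _, max_le zero_le_one (min_le_left _ _)⟩
  have h1 : Continuous fun y : ℝ × ℝ => D (max 0 (min 1 y.1)) (Int.fract y.2) := by
    refine ContinuousOn.comp_fract' (f := fun s t => D (max 0 (min 1 s)) t) ?_ ?_
    · exact (hD.comp (show Continuous fun y : ℝ × ℝ => (max 0 (min 1 y.1), y.2) by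
        fun_prop)).continuousOn
    · intro s
      rw [h0 _ 0 (hp s).1 (hp s).2 le_rfl zero_le_one (Or.inr (Or.inl rfl)),
        h0 _ 1 (hp s).1 (hp s).2 zero_le_one le_rfl (Or.inr (Or.inr rfl))]
  have h2 : Continuous fun y : ℝ × ℝ =>
      D (max 0 (min 1 (Int.fract y.2))) (Int.fract y.1) := by
    refine ContinuousOn.comp_fract' (f := fun t s => D (max 0 (min 1 s)) (Int.fract t)) ?_ ?_
    · exact (h1.comp continuous_swap).continuousOn
    · intro t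
      have e0 : max (0 : ℝ) (min 1 0) = 0 := by norm_num
      have e1 : max (0 : ℝ) (min 1 1) = 1 := by norm_num
      rw [e0, e1, h0 0 _ le_rfl zero_le_one (Int.fract_nonneg t) (Int.fract_lt_one t).le
        (Or.inl (Or.inl rfl)), h0 1 _ zero_le_one le_rfl (Int.fract_nonneg t)
        (Int.fract_lt_one t).le (Or.inl (Or.inr rfl))]
  refine (h2.comp continuous_swap).congr (fun y => ?_)
  simp only [Function.comp, Prod.fst_swap, Prod.snd_swap]
  rw [min_eq_right (Int.fract_lt_one _).le, max_eq_right (Int.fract_nonneg _)]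

section
variable {α : Type} [TopologicalSpace α] {f g : α → ℝ}

@[fun_prop]
lemma tw1_cont (hf : Continuous f) (hg : Continuous g) :
    Continuous fun x => tw1 (f x) (g x) := by
  have := per_cont d1 (by unfold d1; fun_prop)
    (fun s t a b c d h => (d_bdry a b c d h).1)
  have h2 : Continuous fun x => d1 (Int.fract (f x)) (Int.fract (g x)) :=
    Continuous.comp (g := fun y : ℝ × ℝ => d1 (Int.fract y.1) (Int.fract y.2))
      (f := fun x => (f x, g x)) this (hf.prodMk hg)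
  unfold tw1
  exact hf.add h2

@[fun_prop]
lemma tw2_cont (hf : Continuous f) (hg : Continuous g) :
    Continuous fun x => tw2 (f x) (g x) := by
  have := per_cont d2 (by unfold d2; fun_prop)
    (fun s t a b c d h => (d_bdry a b c d h).2)
  have h2 : Continuous fun x => d2 (Int.fract (f x)) (Int.fract (g x)) :=
    Continuous.comp (g := fun y : ℝ × ℝ => d2 (Int.fract y.1) (Int.fract y.2))
      (f := fun x => (f x, g x)) this (hf.prodMk hg)
  unfold tw2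
  exact hg.add h2
end

section
variable {S : Set X} {φ ψ : X → ℝ}

lemma SA.tw1 (h1 : SA S φ) (h2 : SA S ψ) : SA S (fun x => tw1 (φ x) (ψ x)) :=
  h1.add (((((h1.fract.cmul 2).sub (SA.const 1)).t1 ((h2.fract.cmul 2).sub (SA.const 1))).sub
    ((h1.fract.cmul 2).sub (SA.const 1))).div 2)

lemma SA.tw2 (h1 : SA S φ) (h2 : SA S ψ) : SA S (fun x => tw2 (φ x) (ψ x)) :=
  h2.add (((((h1.fract.cmul 2).sub (SA.const 1)).t2 ((h2.fract.cmul 2).sub (SA.const 1))).sub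
    ((h2.fract.cmul 2).sub (SA.const 1))).div 2)
end

lemma fr_abs (a : ℝ) : |2 * Int.fract a - 1| ≤ 1 :=
  nrm_abs (Int.fract_nonneg a) (Int.fract_lt_one a).le

lemma tw1_disp (a b : ℝ) : |tw1 a b - a| ≤ 1 := by
  have h1 := abs_le.1 (t1_abs (2 * Int.fract a - 1) (2 * Int.fract b - 1))
  have h2 := abs_le.1 (fr_abs a)
  unfold tw1 d1
  rw [abs_le]
  constructor <;> linarith [h1.1, h1.2, h2.1, h2.2]

lemma tw2_disp (a b : ℝ) : |tw2 a b - b| ≤ 1 := by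
  have h1 := abs_le.1 (t2_abs (2 * Int.fract a - 1) (2 * Int.fract b - 1))
  have h2 := abs_le.1 (fr_abs b)
  unfold tw2 d2
  rw [abs_le]
  constructor <;> linarith [h1.1, h1.2, h2.1, h2.2]

def IsI (a : ℝ) : Prop := ∃ n : ℤ, a = n

lemma tw_fix {a b : ℝ} (h : IsI a ∨ IsI b) : tw1 a b = a ∧ tw2 a b = b := by
  have := d_bdry (Int.fract_nonneg a) (Int.fract_lt_one a).le (Int.fract_nonneg b)
    (Int.fract_lt_one b).le (h.imp (by rintro ⟨n, rfl⟩; left; simp)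
      (by rintro ⟨n, rfl⟩; left; simp))
  unfold tw1 tw2
  rw [this.1, this.2]
  simp

noncomputable def off (a : ℝ) : ℝ := |Int.fract a - 1 / 2|

lemma isI_of_abs {n : ℤ} {t x : ℝ} (h : |t| = 1) (e : x = n + (t + 1) / 2) : IsI x := by
  rcases abs_eq zero_le_one |>.1 h with rfl | rfl
  · exact ⟨n + 1, by rw [e]; push_cast; ring⟩
  · exact ⟨n, by rw [e]; ring⟩

lemma tw_key (a b : ℝ) : IsI (tw1 a b) ∨ IsI (tw2 a b) ∨ 2 * off b ≤ off (tw1 a b) := by
  have e1 : tw1 a b = ⌊a⌋ + (t1 (2 * Int.fract a - 1) (2 * Int.fract b - 1) + 1) / 2 := by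
    unfold tw1 d1
    have := Int.floor_add_fract a
    linarith
  have e2 : tw2 a b = ⌊b⌋ + (t2 (2 * Int.fract a - 1) (2 * Int.fract b - 1) + 1) / 2 := by
    unfold tw2 d2
    have := Int.floor_add_fract b
    linarith
  rcases (t1_abs (2 * Int.fract a - 1) (2 * Int.fract b - 1)).eq_or_lt with h1 | h1
  · exact Or.inl (isI_of_abs h1 e1)
  rcases (t2_abs (2 * Int.fract a - 1) (2 * Int.fract b - 1)).eq_or_lt with h2 | h2
  · exact Or.inr (Or.inl (isI_of_abs h2 e2))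
  right; right
  have h3 := t_key (fr_abs a) (fr_abs b) h1 h2
  generalize t1 (2 * Int.fract a - 1) (2 * Int.fract b - 1) = t at *
  have h4 := abs_lt.1 h1
  have e3 : Int.fract (tw1 a b) = (t + 1) / 2 := by
    rw [e1, Int.fract_intCast_add, Int.fract_eq_self.2 ⟨by linarith [h4.1], by linarith [h4.2]⟩]
  unfold off
  rw [e3]
  have e4 : (t + 1) / 2 - 1 / 2 = t / 2 := by ring
  have e5 : 2 * Int.fract b - 1 = 2 * (Int.fract b - 1 / 2) := by ring
  rw [e5, abs_mul] at h3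
  rw [e4, abs_div]
  rw [abs_of_pos (show (0 : ℝ) < 2 by norm_num)] at h3 ⊢
  linarith

noncomputable def F1 (a b : ℝ) : ℝ := tw2 (2 * tw2 (2 * a) b) (tw1 (2 * a) b)
noncomputable def F2 (a b : ℝ) : ℝ := tw1 (2 * tw2 (2 * a) b) (tw1 (2 * a) b)

lemma IsI.two {a : ℝ} (h : IsI a) : IsI (2 * a) := by
  obtain ⟨n, rfl⟩ := h
  exact ⟨2 * n, by push_cast; ring⟩

lemma F_fix {a b : ℝ} (h : IsI a ∨ IsI b) : F1 a b = 2 * a ∧ F2 a b = 2 * b := by
  have h1 := tw_fix (a := 2 * a) (b := b) (h.imp IsI.two id)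
  unfold F1 F2
  rw [h1.1, h1.2]
  have h2 := tw_fix (a := 2 * b) (b := 2 * a) (h.symm.imp IsI.two IsI.two)
  exact ⟨h2.2, h2.1⟩

lemma F_key (a b : ℝ) : IsI (F1 a b) ∨ IsI (F2 a b) ∨ 2 * off b ≤ off (F2 a b) := by
  by_cases h : IsI (2 * tw2 (2 * a) b) ∨ IsI (tw1 (2 * a) b)
  · have h2 := tw_fix h
    unfold F1 F2
    rw [h2.1, h2.2]
    rcases h with h | h
    · exact Or.inr (Or.inl h)
    · exact Or.inl h
  rcases tw_key (2 * a) b with h1 | h1 | h1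
  · exact absurd (Or.inr h1) h
  · exact absurd (Or.inl h1.two) h
  rcases tw_key (2 * tw2 (2 * a) b) (tw1 (2 * a) b) with h2 | h2 | h2
  · exact Or.inr (Or.inl h2)
  · exact Or.inl h2
  · right; right
    have : 0 ≤ off b := abs_nonneg _
    unfold F2
    linarith

lemma F1_disp (a b : ℝ) : |F1 a b - 2 * a| ≤ 4 := by
  have h1 := abs_le.1 (tw2_disp (2 * tw2 (2 * a) b) (tw1 (2 * a) b))
  have h2 := abs_le.1 (tw1_disp (2 * a) b)
  unfold F1
  rw [abs_le]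
  constructor <;> linarith [h1.1, h1.2, h2.1, h2.2]

lemma F2_disp (a b : ℝ) : |F2 a b - 2 * b| ≤ 4 := by
  have h1 := abs_le.1 (tw1_disp (2 * tw2 (2 * a) b) (tw1 (2 * a) b))
  have h2 := abs_le.1 (tw2_disp (2 * a) b)
  unfold F2
  rw [abs_le]
  constructor <;> linarith [h1.1, h1.2, h2.1, h2.2]

section
variable {α : Type} [TopologicalSpace α] {f g : α → ℝ}

@[fun_prop]
lemma F1_cont (hf : Continuous f) (hg : Continuous g) : Continuous fun x => F1 (f x) (g x) := by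
  unfold F1
  fun_prop

@[fun_prop]
lemma F2_cont (hf : Continuous f) (hg : Continuous g) : Continuous fun x => F2 (f x) (g x) := by
  unfold F2
  fun_prop
end

section
variable {S : Set X} {φ ψ : X → ℝ}

lemma SA.F1 (h1 : SA S φ) (h2 : SA S ψ) : SA S (fun x => F1 (φ x) (ψ x)) :=
  (((h1.cmul 2).tw2 h2).cmul 2).tw2 ((h1.cmul 2).tw1 h2)

lemma SA.F2 (h1 : SA S φ) (h2 : SA S ψ) : SA S (fun x => F2 (φ x) (ψ x)) :=
  (((h1.cmul 2).tw2 h2).cmul 2).tw1 ((h1.cmul 2).tw1 h2)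
end

end Pool.Agent.H.MP_be0572_gt
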