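import Pool.Agent.H.MP_be0572_gt.B

set_option autoImplicit false

namespace Pool.Agent.H.MP_be0572_gt
open Set Filter Topology

lemma exists_lim (f : ℕ → X → ℝ × ℝ) (hc : ∀ n, Continuous (f n)) (C : ℝ)
    (h : ∀ n x, dist (f n x) (f (n + 1) x) ≤ C * (1 / 2) ^ n) :
    ∃ g : X → ℝ × ℝ, Continuous g ∧ ∀ x, Tendsto (fun n => f n x) atTop (𝓝 (g x)) := by
  have h1 : ∀ x, ∃ a, Tendsto (fun n => f n x) atTop (𝓝 a) := fun x =>
    cauchySeq_tendsto_of_complete
      (cauchySeq_of_le_geometric (1 / 2) C (by norm_num) (fun n => h n x))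
  choose g hg using h1
  refine ⟨g, ?_, hg⟩
  have h2 : TendstoUniformly f g atTop := by
    rw [Metric.tendstoUniformly_iff]
    intro ε hε
    have h3 : Tendsto (fun n : ℕ => C * (1 / 2 : ℝ) ^ n / (1 - 1 / 2)) atTop
        (𝓝 (C * 0 / (1 - 1 / 2))) :=
      ((tendsto_pow_atTop_nhds_zero_of_lt_one (by norm_num) (by norm_num)).const_mul C).div_const _
    rw [mul_zero, zero_div] at h3
    filter_upwards [h3.eventually (gt_mem_nhds hε)] with n hn x
    rw [dist_comm]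
    exact (dist_le_of_le_geometric_of_tendsto (1 / 2) C (by norm_num) (fun n => h n x)
      (hg x) n).trans_lt hn
  exact h2.continuous (Frequently.of_forall hc)

lemma isClosed_isI {α : Type} [TopologicalSpace α] {f : α → ℝ} (hf : Continuous f) :
    IsClosed {x | IsI (f x)} := by
  have := Int.isClosedEmbedding_coe_real.isClosed_range.preimage hf
  convert this using 1
  ext x
  simp only [IsI, mem_ofPred_eq, mem_preimage, mem_range, eq_comm]

def Lam (q : ℝ) : Set ℝ := {t | IsI (t / q - 1 / 2)}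

lemma Lam_countable {q : ℝ} (hq : 0 < q) : (Lam q).Countable := by
  refine (countable_range (fun n : ℤ => q * (n + 1 / 2))).mono ?_
  rintro t ⟨n, hn⟩
  refine ⟨n, ?_⟩
  show q * ((n : ℝ) + 1 / 2) = t
  rw [← hn]
  field_simp
  ring

lemma off_pos {q t : ℝ} (h : t ∉ Lam q) : 0 < off (t / q) := by
  refine lt_of_le_of_ne (abs_nonneg _) (fun e => h ⟨⌊t / q⌋, ?_⟩)
  have e1 := abs_eq_zero.1 e.symm
  have := Int.floor_add_fract (t / q)
  linarith

lemma off_le (a : ℝ) : off a ≤ 1 := by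
  have h1 := Int.fract_nonneg a
  have h2 := Int.fract_lt_one a
  unfold off
  rw [abs_le]
  constructor <;> linarith

noncomputable def bb (q r : ℝ) : ℝ := max 0 (2 * (r - q))
noncomputable def sg (q r : ℝ) : ℝ := max 0 (min (r - q / 2) (2 * q - r))
noncomputable def s1 (q r : ℝ) (y : ℝ × ℝ) : ℝ :=
  y.1 + cl (q / 2 * F1 (y.1 / q) (y.2 / q) - y.1) (bb q r)
noncomputable def s2 (q r : ℝ) (y : ℝ × ℝ) : ℝ :=
  y.2 + cl (q / 2 * F2 (y.1 / q) (y.2 / q) - y.2) (bb q r)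
noncomputable def stp (q r w : ℝ) (y : ℝ × ℝ) : ℝ × ℝ := (s1 q r y, s2 q r y + w * sg q r)

lemma T1_disp {q : ℝ} (hq : 0 < q) (y : ℝ × ℝ) :
    |q / 2 * F1 (y.1 / q) (y.2 / q) - y.1| ≤ 2 * q := by
  have h := F1_disp (y.1 / q) (y.2 / q)
  have e : q / 2 * F1 (y.1 / q) (y.2 / q) - y.1
      = q / 2 * (F1 (y.1 / q) (y.2 / q) - 2 * (y.1 / q)) := by
    field_simp
  rw [e, abs_mul, abs_of_pos (half_pos hq)]
  nlinarith

lemma T2_disp {q : ℝ} (hq : 0 < q) (y : ℝ × ℝ) :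
    |q / 2 * F2 (y.1 / q) (y.2 / q) - y.2| ≤ 2 * q := by
  have h := F2_disp (y.1 / q) (y.2 / q)
  have e : q / 2 * F2 (y.1 / q) (y.2 / q) - y.2
      = q / 2 * (F2 (y.1 / q) (y.2 / q) - 2 * (y.2 / q)) := by
    field_simp
  rw [e, abs_mul, abs_of_pos (half_pos hq)]
  nlinarith

lemma stp_dist {q : ℝ} (hq : 0 < q) (r : ℝ) {w : ℝ} (hw0 : 0 < w) (hw1 : w < 1) (y : ℝ × ℝ) :
    dist y (stp q r w y) ≤ 4 * q := by
  have hb : 0 ≤ bb q r := le_max_left _ _
  have h1 := abs_le.1 ((cl_abs' _ hb).trans (T1_disp hq y))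
  have h2 := abs_le.1 ((cl_abs' _ hb).trans (T2_disp hq y))
  have h3 : 0 ≤ sg q r := le_max_left _ _
  have h4 : sg q r ≤ 2 * q := by
    unfold sg
    refine max_le (by linarith) ?_
    linarith [min_le_left (r - q / 2) (2 * q - r), min_le_right (r - q / 2) (2 * q - r)]
  have h5 : 0 ≤ w * sg q r := mul_nonneg hw0.le h3
  have h6 : w * sg q r ≤ sg q r := mul_le_of_le_one_left h3 hw1.le
  rw [Prod.dist_eq, Real.dist_eq, Real.dist_eq]
  unfold stp s1 s2
  refine max_le ?_ ?_ <;> rw [abs_le] <;> constructor <;> linarith [h1.1, h1.2, h2.1, h2.2]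

lemma stp_low {q : ℝ} (hq : 0 < q) {r : ℝ} (hr : r ≤ q / 2) (w : ℝ) (y : ℝ × ℝ) :
    stp q r w y = y := by
  have h1 : bb q r = 0 := max_eq_left (by linarith)
  have h2 : sg q r = 0 := max_eq_left ((min_le_left _ _).trans (by linarith))
  unfold stp s1 s2
  rw [h1, h2, cl_zero, cl_zero]
  simp

lemma stp_full {q : ℝ} (hq : 0 < q) {r : ℝ} (hr : 2 * q ≤ r) (w : ℝ) (y : ℝ × ℝ) :
    stp q r w y = (q / 2 * F1 (y.1 / q) (y.2 / q), q / 2 * F2 (y.1 / q) (y.2 / q)) := by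
  have h1 : 2 * q ≤ bb q r := le_max_of_le_right (by linarith)
  have h2 : sg q r = 0 := max_eq_left ((min_le_right _ _).trans (by linarith))
  unfold stp s1 s2
  rw [h2, cl_self ((T1_disp hq y).trans h1), cl_self ((T2_disp hq y).trans h1)]
  simp

lemma sg_pos {q r : ℝ} (h1 : q / 2 < r) (h2 : r < 2 * q) : sg q r ≠ 0 := by
  have : 0 < sg q r := lt_max_of_lt_right (lt_min (by linarith) (by linarith))
  exact this.ne'

def Good (S : Set X) (y : X → ℝ × ℝ) : Prop :=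
  Continuous y ∧ SA S (fun x => (y x).1) ∧ SA S (fun x => (y x).2)

lemma step_ex (S : Set X) (ρ : X → ℝ) (hρc : Continuous ρ) (hρ : SA S ρ) {q : ℝ} (hq : 0 < q)
    (y : X → ℝ × ℝ) (hy : Good S y) :
    ∃ w, 0 < w ∧ w < 1 ∧ Good S (fun x => stp q (ρ x) w (y x)) ∧
      Planar {x | x ∈ S ∧ sg q (ρ x) ≠ 0 ∧ (stp q (ρ x) w (y x)).2 ∈ Lam (q / 2)} := by
  obtain ⟨hc, h1, h2⟩ := hy
  have hb : SA S (fun x => bb q (ρ x)) := (SA.const 0).max ((hρ.sub (SA.const q)).cmul 2)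
  have hs : SA S (fun x => sg q (ρ x)) :=
    (SA.const 0).max ((hρ.sub (SA.const _)).min ((SA.const _).sub hρ))
  have h3 : SA S (fun x => s1 q (ρ x) (y x)) :=
    h1.add (((((h1.div q).F1 (h2.div q)).cmul (q / 2)).sub h1).cl hb)
  have h4 : SA S (fun x => s2 q (ρ x) (y x)) :=
    h2.add (((((h1.div q).F2 (h2.div q)).cmul (q / 2)).sub h2).cl hb)
  obtain ⟨w, hw0, hw1, hw⟩ := generic h4 hs (Lam (q / 2)) (Lam_countable (half_pos hq)) one_pos
  refine ⟨w, hw0, hw1, ⟨?_, h3, h4.add (hs.cmul w)⟩, hw⟩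
  unfold stp s1 s2 bb sg
  fun_prop

def RatL (y : ℝ × ℝ) : Prop := (∃ a : ℚ, y.1 = a) ∨ (∃ a : ℚ, y.2 = a)

lemma rat_of_isI {t : ℝ} {j : ℕ} (h : IsI (t / (1 / 2) ^ j)) : ∃ a : ℚ, t = a := by
  obtain ⟨n, hn⟩ := h
  refine ⟨n * (1 / 2) ^ j, ?_⟩
  push_cast
  rw [← hn]
  field_simp

lemma orbit (K : Set X) (hK : IsClosed K) (hKp : Planar K) (h : X → ℝ × ℝ) (hh : Good Kᶜ h)
    (ρ0 : X → ℝ) (hc0 : Continuous ρ0) (hs0 : SA univ ρ0) (h00 : ∀ x, 0 ≤ ρ0 x)
    (h01 : ∀ x, ρ0 x ≤ 1) (hK0 : ∀ x ∈ K, ρ0 x = 0) (hpos0 : ∀ x ∉ K, 0 < ρ0 x) :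
    ∃ (g : X → ℝ × ℝ) (E : Set X), IsClosed E ∧ Planar E ∧ K ⊆ E ∧ Good Eᶜ g ∧
      (∀ x ∉ E, RatL (g x)) ∧ ∀ x, dist (g x) (h x) ≤ 16 * ρ0 x := by
  obtain ⟨w0, hw0, hw1, hZ⟩ := generic (S := Kᶜ) (SA.const 0) (hs0.mono (subset_univ _))
    (range fun k : ℕ => 2 * (1 / 2 : ℝ) ^ k) (countable_range _) one_pos
  set ρ : X → ℝ := fun x => w0 * ρ0 x with hρ
  have hρc : Continuous ρ := by fun_prop
  have hρs : SA Kᶜ ρ := (hs0.mono (subset_univ _)).cmul w0
  have hρ0 : ∀ x, 0 ≤ ρ x := fun x => mul_nonneg hw0.le (h00 x)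
  have hρ1 : ∀ x, ρ x ≤ ρ0 x := fun x => mul_le_of_le_one_left (h00 x) hw1.le
  have hq : ∀ k : ℕ, (0 : ℝ) < (1 / 2) ^ k := fun k => by positivity
  have hq2 : ∀ k : ℕ, ((1 / 2 : ℝ)) ^ (k + 1) = (1 / 2) ^ k / 2 := fun k => by ring
  choose W hW0 hW1 hWg hWp using fun (k : ℕ) (y : {y // Good Kᶜ y}) =>
    step_ex Kᶜ ρ hρc hρs (hq k) y.1 y.2
  let Y : ℕ → {y // Good Kᶜ y} := fun n =>
    Nat.rec ⟨h, hh⟩ (fun k y => ⟨fun x => stp ((1 / 2) ^ k) (ρ x) (W k y) (y.1 x), hWg k y⟩) n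
  obtain ⟨y, hy⟩ : ∃ y : ℕ → X → ℝ × ℝ, ∀ k, y k = (Y k).1 := ⟨_, fun _ => rfl⟩
  obtain ⟨w, hw⟩ : ∃ w : ℕ → ℝ, ∀ k, w k = W k (Y k) := ⟨_, fun _ => rfl⟩
  have hy0 : y 0 = h := hy 0
  have hys : ∀ k x, y (k + 1) x = stp ((1 / 2) ^ k) (ρ x) (w k) (y k x) := by
    intro k x
    rw [hy, hy, hw]
  have hyg : ∀ k, Good Kᶜ (y k) := fun k => hy k ▸ (Y k).2
  have hww : ∀ k, 0 < w k ∧ w k < 1 := fun k => hw k ▸ ⟨hW0 k _, hW1 k _⟩
  have hyp : ∀ k, Planar {x | x ∈ Kᶜ ∧ sg ((1 / 2) ^ k) (ρ x) ≠ 0 ∧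
      (y (k + 1) x).2 ∈ Lam ((1 / 2) ^ (k + 1))} := by
    intro k
    have := hWp k (Y k)
    rw [← hw, ← hy, ← hq2] at this
    simpa only [hys] using this
  clear hy hw
  clear_value Y
  clear Y hW0 hW1 hWg hWp W
  have hd : ∀ k x, dist (y k x) (y (k + 1) x) ≤ 4 * (1 / 2) ^ k := by
    intro k x
    rw [hys]
    exact stp_dist (hq k) _ (hww k).1 (hww k).2 _
  obtain ⟨g, hgc, hg⟩ := exists_lim y (fun k => (hyg k).1) 4 hd
  have hfull : ∀ x k, 2 * (1 / 2 : ℝ) ^ k ≤ ρ x →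
      (y (k + 1) x).1 / (1 / 2) ^ (k + 1) = F1 ((y k x).1 / (1 / 2) ^ k) ((y k x).2 / (1 / 2) ^ k)
      ∧ (y (k + 1) x).2 / (1 / 2) ^ (k + 1)
        = F2 ((y k x).1 / (1 / 2) ^ k) ((y k x).2 / (1 / 2) ^ k) := by
    intro x k hk
    rw [hys, stp_full (hq k) hk, hq2]
    have := (hq k).ne'
    constructor <;> field_simp
  have hmono : ∀ x k j, 2 * (1 / 2 : ℝ) ^ k ≤ ρ x → 2 * (1 / 2 : ℝ) ^ (k + j) ≤ ρ x := by
    intro x k j hk
    have : ((1 / 2 : ℝ)) ^ (k + j) ≤ (1 / 2) ^ k :=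
      pow_le_pow_of_le_one (by norm_num) (by norm_num) (by omega)
    linarith
  set E : Set X := {x | ∀ k : ℕ, ρ x ≤ 2 * (1 / 2) ^ k ∨ (y k x).2 ∈ Lam ((1 / 2) ^ k)} with hE
  have hland : ∀ x ∉ E, ∃ j, g x = y j x ∧ RatL (y j x) := by
    intro x hx
    simp only [hE, mem_ofPred_eq, not_forall, not_or, not_le] at hx
    obtain ⟨k, hk, hk2⟩ := hx
    have h1 : ∃ j, IsI ((y (k + j) x).1 / (1 / 2) ^ (k + j)) ∨
        IsI ((y (k + j) x).2 / (1 / 2) ^ (k + j)) := by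
      by_contra hno
      push Not at hno
      have h2 : ∀ j, 2 ^ j * off ((y k x).2 / (1 / 2) ^ k)
          ≤ off ((y (k + j) x).2 / (1 / 2) ^ (k + j)) := by
        intro j
        induction j with
        | zero => simp
        | succ j ih =>
          have h3 := hfull x (k + j) (hmono x k j hk.le)
          have h4 := hno (j + 1)
          rw [← add_assoc, h3.1, h3.2] at h4
          rw [← add_assoc, h3.2, pow_succ]
          rcases F_key ((y (k + j) x).1 / (1 / 2) ^ (k + j))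
            ((y (k + j) x).2 / (1 / 2) ^ (k + j)) with h5 | h5 | h5
          · exact absurd h5 h4.1
          · exact absurd h5 h4.2
          · linarith
      have h5 := off_pos hk2
      obtain ⟨j, hj⟩ := pow_unbounded_of_one_lt (1 / off ((y k x).2 / (1 / 2) ^ k))
        (show (1 : ℝ) < 2 by norm_num)
      rw [div_lt_iff₀ h5] at hj
      linarith [h2 j, off_le ((y (k + j) x).2 / (1 / 2) ^ (k + j))]
    obtain ⟨j, hj⟩ := h1
    have hkj := hmono x k j hk.le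
    generalize k + j = m at hj hkj
    have h2 : ∀ i, y (m + i) x = y m x ∧ (IsI ((y (m + i) x).1 / (1 / 2) ^ (m + i)) ∨
        IsI ((y (m + i) x).2 / (1 / 2) ^ (m + i))) := by
      intro i
      induction i with
      | zero => exact ⟨rfl, hj⟩
      | succ i ih =>
        have h3 := hfull x (m + i) (hmono x m i hkj)
        have h4 := F_fix ih.2
        rw [h4.1, h4.2] at h3
        rw [← add_assoc]
        refine ⟨?_, ?_⟩
        · rw [← ih.1]
          have h5 := (hq (m + i)).ne'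
          obtain ⟨e1, e2⟩ := h3
          rw [hq2] at e1 e2
          field_simp at e1 e2
          exact Prod.ext e1 e2
        · rw [h3.1, h3.2]
          exact ih.2.imp IsI.two IsI.two
    refine ⟨m, ?_, hj.imp rat_of_isI rat_of_isI⟩
    have h3 : Tendsto (fun n => y n x) atTop (𝓝 (y m x)) := by
      refine tendsto_const_nhds.congr' ?_
      filter_upwards [eventually_ge_atTop m] with n hn
      obtain ⟨i, rfl⟩ := Nat.exists_eq_add_of_le hn
      exact (h2 i).1.symm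
    exact tendsto_nhds_unique (hg x) h3
  have hKE : K ⊆ E := by
    intro x hx k
    left
    have : ρ x = 0 := by simp only [hρ, hK0 x hx, mul_zero]
    linarith [hq k]
  refine ⟨g, E, ?_, ?_, hKE, ⟨hgc, ?_, ?_⟩, ?_, ?_⟩
  · have : E = ⋂ k : ℕ, ({x | ρ x ≤ 2 * (1 / 2) ^ k} ∪
        {x | IsI ((y k x).2 / (1 / 2) ^ k - 1 / 2)}) := by
      ext x
      simp only [hE, mem_ofPred_eq, mem_iInter, mem_union, Lam]
    rw [this]
    refine isClosed_iInter fun k => (isClosed_le hρc continuous_const).union (isClosed_isI ?_)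
    have := (hyg k).1
    fun_prop
  · refine (hKp.union (hZ.union (Planar.iUnion _ hyp))).mono fun x hx => ?_
    by_cases hxK : x ∈ K
    · exact Or.inl hxK
    right
    have hp := hpos0 x hxK
    have hp' : 0 < ρ x := mul_pos hw0 hp
    have hex : ∃ k : ℕ, (1 / 2 : ℝ) ^ k < ρ x := exists_pow_lt_of_lt_one hp' (by norm_num)
    have hk := Nat.find_spec hex
    have hk' : ρ x ≤ 2 * (1 / 2) ^ (Nat.find hex) := by
      rcases e : Nat.find hex with _ | k
      · have := h01 x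
        have := hρ1 x
        norm_num
        linarith
      · have := Nat.find_min hex (show k < Nat.find hex by omega)
        rw [hq2]
        linarith
    generalize Nat.find hex = k at hk hk'
    rcases hk'.eq_or_lt with e | e
    · left
      refine ⟨hxK, hp.ne', k, ?_⟩
      show 2 * (1 / 2 : ℝ) ^ k = 0 + w0 * ρ0 x
      rw [zero_add]
      exact e.symm
    · right
      refine mem_iUnion.2 ⟨k, hxK, sg_pos (by linarith [hq k]) e, ?_⟩
      rcases hx (k + 1) with h1 | h1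
      · rw [hq2] at h1
        linarith
      · exact h1
  · refine SA.of_iUnion (fun j x => (y j x).1)
      (fun j => (hyg j).2.1.mono (compl_subset_compl.2 hKE)) (fun x hx => ?_)
    obtain ⟨j, hj, -⟩ := hland x hx
    exact ⟨j, by rw [hj]⟩
  · refine SA.of_iUnion (fun j x => (y j x).2)
      (fun j => (hyg j).2.2.mono (compl_subset_compl.2 hKE)) (fun x hx => ?_)
    obtain ⟨j, hj, -⟩ := hland x hx
    exact ⟨j, by rw [hj]⟩
  · intro x hx
    obtain ⟨j, hj, hr⟩ := hland x hx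
    rwa [hj]
  · intro x
    have h1 : ∀ n, dist (y n x) (h x) ≤ max 0 (16 * ρ x - 8 * (1 / 2) ^ n) ∨
        (n = 0) := by
      intro n
      left
      induction n with
      | zero => rw [hy0, dist_self]; exact le_max_left _ _
      | succ n ih =>
        rcases le_or_gt (ρ x) ((1 / 2) ^ n / 2) with h2 | h2
        · rw [hys, stp_low (hq n) h2]
          refine ih.trans (max_le_max le_rfl ?_)
          rw [hq2]
          linarith [hq n]
        · rw [max_eq_right (by linarith)] at ih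
          refine le_max_of_le_right ?_
          have h3 := hd n x
          have h4 := dist_triangle_left (y (n + 1) x) (h x) (y n x)
          rw [hq2]
          linarith
    have h2 : ∀ n, dist (y n x) (h x) ≤ 16 * ρ0 x := by
      intro n
      rcases h1 n with h3 | rfl
      · refine h3.trans (max_le (by linarith [h00 x]) ?_)
        linarith [hq n, hρ1 x]
      · rw [hy0, dist_self]
        linarith [h00 x]
    exact le_of_tendsto' ((hg x).dist tendsto_const_nhds) h2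

end Pool.Agent.H.MP_be0572_gt
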