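import Pool.Agent.H.MP_be0572_gt.C

set_option autoImplicit false

namespace Pool.Agent.H.MP_be0572_gt
open Set Filter Topology

def walls (ε : ℝ) : Set X := ⋃ i : Fin 3, {x | IsI (x i / ε)}

lemma walls_closed (ε : ℝ) : IsClosed (walls ε) :=
  isClosed_iUnion_of_finite fun i => isClosed_isI (by fun_prop)

lemma walls_planar {ε : ℝ} (hε : 0 < ε) : Planar (walls ε) := by
  refine Planar.iUnion _ fun i => ?_
  refine ⟨range fun n : ℤ => ((0, Pi.single i 1) : Af) + (-(ε * n), 0), countable_range _, ?_, ?_⟩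
  · rintro _ ⟨n, rfl⟩ e
    have := congrFun (congrArg Prod.snd e) i
    simp at this
  · rintro x ⟨n, hn⟩
    refine ⟨_, ⟨n, rfl⟩, ?_⟩
    rw [ev_add, ev_coord, ev_const, ← hn]
    field_simp
    ring

def Cert (h : X → ℝ × ℝ) (δ : X → ℝ) (K : Set X) (ε : ℝ) : Prop :=
  ∀ g : X → ℝ × ℝ, (∀ z, dist (g z) (h z) ≤ δ z) → ∀ x ∉ K, ∃ η > 0, ∀ Q : Set X,
    IsPreconnected Q → x ∈ Q → (∀ z ∈ Q, dist (g z) (g x) < η) → ∀ z ∈ Q, dist z x ≤ ε

lemma cell (ε : ℝ) (hε : 0 < ε) (x : X) (hx : x ∉ walls ε) :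
    ∃ O C : Set X, IsOpen O ∧ IsClosed C ∧ x ∈ O ∧ O ⊆ C ∧ (∀ z ∈ C, dist z x ≤ ε) ∧
      ∀ z ∈ C, z ∉ walls ε → z ∈ O := by
  refine ⟨⋂ i, {z | (⌊x i / ε⌋ : ℝ) < z i / ε ∧ z i / ε < ⌊x i / ε⌋ + 1},
    ⋂ i, {z | (⌊x i / ε⌋ : ℝ) ≤ z i / ε ∧ z i / ε ≤ ⌊x i / ε⌋ + 1}, ?_, ?_, ?_, ?_, ?_, ?_⟩
  · refine isOpen_iInter_of_finite fun i => ?_
    have hc : Continuous fun z : X => z i / ε := by fun_prop
    exact IsOpen.and (isOpen_lt continuous_const hc) (isOpen_lt hc continuous_const)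
  · refine isClosed_iInter fun i => ?_
    have hc : Continuous fun z : X => z i / ε := by fun_prop
    exact IsClosed.and (isClosed_le continuous_const hc) (isClosed_le hc continuous_const)
  · refine mem_iInter.2 fun i => ⟨lt_of_le_of_ne (Int.floor_le _) fun e => ?_,
      Int.lt_floor_add_one _⟩
    exact hx (mem_iUnion.2 ⟨i, _, e.symm⟩)
  · exact iInter_mono fun i z hz => ⟨hz.1.le, hz.2.le⟩
  · intro z hz
    rw [dist_pi_le_iff hε.le]
    intro i
    obtain ⟨h1, h2⟩ := mem_iInter.1 hz i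
    have h3 := Int.floor_le (x i / ε)
    have h4 := Int.lt_floor_add_one (x i / ε)
    have h5 : |z i / ε - x i / ε| ≤ 1 := by
      rw [abs_le]
      constructor <;> linarith
    rw [← sub_div, abs_div, abs_of_pos hε, div_le_one hε] at h5
    rwa [Real.dist_eq]
  · intro z hz hw
    refine mem_iInter.2 fun i => ?_
    obtain ⟨h1, h2⟩ := mem_iInter.1 hz i
    refine ⟨lt_of_le_of_ne h1 fun e => ?_, lt_of_le_of_ne h2 fun e => ?_⟩
    · exact hw (mem_iUnion.2 ⟨i, _, e.symm⟩)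
    · exact hw (mem_iUnion.2 ⟨i, ⌊x i / ε⌋ + 1, by rw [e]; push_cast; ring⟩)

lemma step (K : Set X) (hK : IsClosed K) (hKp : Planar K) (h : X → ℝ × ℝ) (hh : Good Kᶜ h)
    (δ : X → ℝ) (hδc : Continuous δ) (hδ0 : ∀ x, 0 ≤ δ x) (hδp : ∀ x ∉ K, 0 < δ x)
    {ε : ℝ} (hε : 0 < ε) :
    ∃ (K' : Set X) (h' : X → ℝ × ℝ) (δ' : X → ℝ), IsClosed K' ∧ Planar K' ∧ Good K'ᶜ h' ∧
      Continuous δ' ∧ (∀ x, 0 ≤ δ' x) ∧ (∀ x ∉ K', 0 < δ' x) ∧
      (∀ x, dist (h' x) (h x) ≤ δ x / 2) ∧ (∀ x, δ' x ≤ δ x / 2) ∧ Cert h' δ' K' ε := by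
  have hsm : ∀ (c : ℝ), 0 < c → ∀ z0 ∉ K, ∃ d > 0, ∀ᶠ z in 𝓝 z0, d ≤ c * δ z := by
    intro c hc z0 hz0
    have h1 := mul_pos hc (hδp z0 hz0)
    refine ⟨c * δ z0 / 2, half_pos h1, ?_⟩
    have h2 : Continuous fun z => c * δ z := by fun_prop
    exact (h2.continuousAt.eventually (lt_mem_nhds (half_lt_self h1))).mono fun z hz => hz.le
  obtain ⟨ρ0, hc0, hs0, h00, h01, hK0, hp0, hQ0⟩ := bump K hK (fun z d => d ≤ 1 / 64 * δ z)
    (fun z d d' h1 _ h2 => h2.trans h1) (hsm _ (by norm_num))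
  obtain ⟨g, E, hE, hEp, hKE, hg, hgL, hgd⟩ := orbit K hK hKp h hh ρ0 hc0 hs0 h00 h01 hK0 hp0
  have hgd' : ∀ x, dist (g x) (h x) ≤ δ x / 4 := by
    intro x
    by_cases hx : x ∈ K
    · have := hgd x
      rw [hK0 x hx] at this
      linarith [hδ0 x]
    · linarith [hgd x, hQ0 x hx]
  set K' := E ∪ walls ε with hK'
  have hK'c : IsClosed K' := hE.union (walls_closed ε)
  have hKK' : ∀ x ∉ K', x ∉ K := fun x hx hxK => hx (Or.inl (hKE hxK))
  obtain ⟨ρ, hc, hs, h0, -, hKz, hp, hQ⟩ := bump K' hK'c (fun z d => d ≤ 1 / 4 * δ z)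
    (fun z d d' h1 _ h2 => h2.trans h1) (fun z hz => hsm _ (by norm_num) z (hKK' z hz))
  have hρδ : ∀ x, ρ x ≤ δ x / 4 := by
    intro x
    by_cases hx : x ∈ K'
    · rw [hKz x hx]
      linarith [hδ0 x]
    · linarith [hQ x hx]
  set h' : X → ℝ × ℝ := fun x => ((g x).1 + ρ x, (g x).2 + ρ x) with hh'
  have hgc := hg.1
  have hh'c : Continuous h' := by fun_prop
  let P : X → ℝ → Prop := fun x η => ∃ s, 0 < s ∧ s < ρ x ∧
    ∀ z, dist z x ≤ ε → ρ z = s → η ≤ dist (h' z) (h' x)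
  have hPm : ∀ x η η', P x η → η' ≤ η → P x η' := by
    rintro x η η' ⟨s, h1, h2, h3⟩ hle
    exact ⟨s, h1, h2, fun z a b => hle.trans (h3 z a b)⟩
  have hPloc : ∀ x0 ∉ K', ∃ η > 0, ∀ᶠ x in 𝓝 x0, P x η := by
    intro x0 hx0
    obtain ⟨s, hs0', hs1, hs2⟩ := exists_avoid
      ((range fun a : ℚ => (h' x0).1 - a) ∪ (range fun a : ℚ => (h' x0).2 - a))
      ((countable_range _).union (countable_range _)) (hp x0 hx0)
    have hF : IsCompact (Metric.closedBall x0 (ε + 1) ∩ {z | ρ z = s}) :=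
      (isCompact_closedBall x0 (ε + 1)).inter_right (isClosed_eq hc continuous_const)
    have hno : h' x0 ∈ (h' '' (Metric.closedBall x0 (ε + 1) ∩ {z | ρ z = s}))ᶜ := by
      rintro ⟨z, ⟨-, hz⟩, e⟩
      have hz' : ρ z = s := hz
      have hzK : z ∉ E := fun hzE => by
        have := hKz z (Or.inl hzE)
        linarith
      apply hs2
      rcases hgL z hzK with ⟨a, ha⟩ | ⟨a, ha⟩
      · left
        refine ⟨a, ?_⟩
        show (h' x0).1 - a = s
        rw [← e, ← ha, ← hz']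
        simp only [hh']
        ring
      · right
        refine ⟨a, ?_⟩
        show (h' x0).2 - a = s
        rw [← e, ← ha, ← hz']
        simp only [hh']
        ring
    obtain ⟨r, hr, hball⟩ := Metric.isOpen_iff.1 (hF.image hh'c).isClosed.isOpen_compl _ hno
    refine ⟨r / 2, half_pos hr, ?_⟩
    have e1 : ∀ᶠ x in 𝓝 x0, dist (h' x) (h' x0) < r / 2 :=
      hh'c.continuousAt.eventually (Metric.ball_mem_nhds _ (half_pos hr))
    have e2 : ∀ᶠ x in 𝓝 x0, s < ρ x := hc.continuousAt.eventually (lt_mem_nhds hs1)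
    have e3 : ∀ᶠ x in 𝓝 x0, dist x x0 < 1 := Metric.ball_mem_nhds x0 one_pos
    filter_upwards [e1, e2, e3] with x h1 h2 h3
    refine ⟨s, hs0', h2, fun z hz1 hz2 => ?_⟩
    have h4 : r ≤ dist (h' z) (h' x0) := by
      by_contra h5
      push Not at h5
      refine hball h5 ⟨z, ⟨?_, hz2⟩, rfl⟩
      rw [Metric.mem_closedBall]
      linarith [dist_triangle z x x0]
    linarith [dist_triangle (h' z) (h' x) (h' x0)]
  have hPc : ∀ S : Set X, IsCompact S → (∀ x ∈ S, x ∉ K') → ∃ η > 0, ∀ x ∈ S, P x η := by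
    intro S hS hSK
    refine hS.induction_on (p := fun T => ∃ η > 0, ∀ x ∈ T, P x η) ⟨1, one_pos, by simp⟩ ?_ ?_ ?_
    · rintro s t hst ⟨η, h1, h2⟩
      exact ⟨η, h1, fun x hx => h2 x (hst hx)⟩
    · rintro s t ⟨η, h1, h2⟩ ⟨η', h1', h2'⟩
      refine ⟨min η η', lt_min h1 h1', ?_⟩
      rintro x (hx | hx)
      · exact hPm x _ _ (h2 x hx) (min_le_left _ _)
      · exact hPm x _ _ (h2' x hx) (min_le_right _ _)
    · intro x hx
      obtain ⟨η, h1, h2⟩ := hPloc x (hSK x hx)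
      exact ⟨_, mem_nhdsWithin_of_mem_nhds h2, η, h1, fun _ h => h⟩
  obtain ⟨δ', hc', -, h0', -, hKz', hp', hQ'⟩ := bump K' hK'c
    (fun z d => d ≤ 1 / 2 * δ z ∧ ∀ x, dist z x ≤ ε → ρ z ≤ ρ x → P x (3 * d))
    (fun z d d' h1 _ h2 => ⟨h2.trans h1.1, fun x a b => hPm x _ _ (h1.2 x a b) (by linarith)⟩)
    (by
      intro z0 hz0
      obtain ⟨d, hd, hd2⟩ := hsm (1 / 2) (by norm_num) z0 (hKK' z0 hz0)
      have hpz := hp z0 hz0
      obtain ⟨η, hη, hη2⟩ := hPc (Metric.closedBall z0 (ε + 1) ∩ {x | ρ z0 / 2 ≤ ρ x})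
        ((isCompact_closedBall z0 (ε + 1)).inter_right (isClosed_le continuous_const hc))
        (fun x hx hxK => by
          have h1 : ρ z0 / 2 ≤ ρ x := hx.2
          rw [hKz x hxK] at h1
          linarith)
      refine ⟨min d (η / 3), lt_min hd (by linarith), ?_⟩
      have e2 : ∀ᶠ z in 𝓝 z0, ρ z0 / 2 < ρ z :=
        hc.continuousAt.eventually (lt_mem_nhds (half_lt_self hpz))
      have e3 : ∀ᶠ z in 𝓝 z0, dist z z0 < 1 := Metric.ball_mem_nhds z0 one_pos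
      filter_upwards [hd2, e2, e3] with z h1 h2 h3
      refine ⟨(min_le_left _ _).trans h1, fun x hx1 hx2 => ?_⟩
      refine hPm x η _ (hη2 x ⟨?_, ?_⟩) (by linarith [min_le_right d (η / 3)])
      · rw [Metric.mem_closedBall]
        linarith [dist_triangle_left x z0 z]
      · show ρ z0 / 2 ≤ ρ x
        linarith)
  have hEK : K'ᶜ ⊆ Eᶜ := compl_subset_compl.2 subset_union_left
  refine ⟨K', h', δ', hK'c, hEp.union (walls_planar hε), ⟨hh'c,
    (hg.2.1.mono hEK).add (hs.mono (subset_univ _)),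
    (hg.2.2.mono hEK).add (hs.mono (subset_univ _))⟩, hc', h0', hp', ?_, ?_, ?_⟩
  · intro x
    have h1 : dist (h' x) (g x) ≤ ρ x := by
      rw [Prod.dist_eq, Real.dist_eq, Real.dist_eq]
      simp only [hh', add_sub_cancel_left, max_self, abs_of_nonneg (h0 x), le_refl]
    linarith [dist_triangle (h' x) (g x) (h x), hgd' x, hρδ x]
  · intro x
    by_cases hx : x ∈ K'
    · rw [hKz' x hx]
      linarith [hδ0 x]
    · linarith [(hQ' x hx).1]
  · intro G hG x hx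
    have hF : IsCompact (Metric.closedBall x ε ∩ {z | ρ z ≤ ρ x}) :=
      (isCompact_closedBall x ε).inter_right (isClosed_le hc continuous_const)
    have hxF : x ∈ Metric.closedBall x ε ∩ {z | ρ z ≤ ρ x} :=
      ⟨Metric.mem_closedBall_self hε.le, le_refl (ρ x)⟩
    obtain ⟨zs, hzs, hmax⟩ := hF.exists_isMaxOn ⟨x, hxF⟩ hc'.continuousOn
    have hm1 : δ' x ≤ δ' zs := hmax hxF
    have hm2 := hp' x hx
    have hzsK : zs ∉ K' := fun h1 => by
      rw [hKz' zs h1] at hm1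
      linarith
    obtain ⟨s, hs0', hs1, hs2⟩ := (hQ' zs hzsK).2 x hzs.1 hzs.2
    refine ⟨δ' zs, by linarith, fun Q hQc hxQ hQd => ?_⟩
    obtain ⟨O, C, hO, hC, hxO, hOC, hCd, hCO⟩ := cell ε hε x (fun h1 => hx (Or.inr h1))
    have hsub : Q ⊆ O ∩ {z | s < ρ z} := by
      refine hQc.subset_of_closure_inter_subset (hO.inter (isOpen_lt continuous_const hc))
        ⟨x, hxQ, hxO, hs1⟩ ?_
      rintro z ⟨hz1, hz2⟩
      have h1 : z ∈ C ∩ {z | s ≤ ρ z} :=
        closure_minimal (inter_subset_inter hOC fun z (hz : s < ρ z) => hz.le)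
          (hC.inter (isClosed_le continuous_const hc)) hz1
      have h2 : s ≤ ρ z := h1.2
      have h3 : s < ρ z := by
        refine lt_of_le_of_ne h2 fun e => ?_
        have h4 := hs2 z (hCd z h1.1) e.symm
        have h5 : δ' z ≤ δ' zs := hmax ⟨hCd z h1.1, by
          show ρ z ≤ ρ x
          linarith⟩
        have h6 := hQd z hz2
        have h7 := dist_triangle4 (h' z) (G z) (G x) (h' x)
        have h8 := hG z
        have h9 := hG x
        rw [dist_comm] at h8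
        linarith
      refine ⟨hCO z h1.1 fun hw => ?_, h3⟩
      have := hKz z (Or.inr hw)
      linarith
    exact fun z hz => hCd z (hOC (hsub hz).1)

structure St where
  K : Set X
  h : X → ℝ × ℝ
  δ : X → ℝ
  hK : IsClosed K
  hKp : Planar K
  hh : Good Kᶜ h
  hδc : Continuous δ
  hδ0 : ∀ x, 0 ≤ δ x
  hδp : ∀ x ∉ K, 0 < δ x

theorem exists_map : ∃ (H : X → ℝ × ℝ) (A : Set X), Continuous H ∧ Planar A ∧
    ∀ x ∉ A, ∀ ε > 0, ∃ η > 0, ∀ Q : Set X, IsPreconnected Q → x ∈ Q →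
      (∀ z ∈ Q, dist (H z) (H x) < η) → ∀ z ∈ Q, dist z x ≤ ε := by
  have h1 : ∀ (n : ℕ) (a : St), ∃ b : St, (∀ x, dist (b.h x) (a.h x) ≤ a.δ x / 2) ∧
      (∀ x, b.δ x ≤ a.δ x / 2) ∧ Cert b.h b.δ b.K (1 / ((n : ℝ) + 1)) := by
    intro n a
    obtain ⟨K', h', δ', p1, p2, p3, p4, p5, p6, p7, p8, p9⟩ :=
      step a.K a.hK a.hKp a.h a.hh a.δ a.hδc a.hδ0 a.hδp (Nat.one_div_pos_of_nat (n := n))
    exact ⟨⟨K', h', δ', p1, p2, p3, p4, p5, p6⟩, p7, p8, p9⟩
  choose nx hn1 hn2 hn3 using h1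
  let a0 : St := ⟨∅, fun _ => 0, fun _ => 1, isClosed_empty, Planar.empty,
    ⟨continuous_const, SA.const 0, SA.const 0⟩, continuous_const, fun _ => zero_le_one,
    fun _ _ => one_pos⟩
  let a : ℕ → St := fun n => Nat.rec a0 nx n
  have ha : ∀ n, a (n + 1) = nx n (a n) := fun n => rfl
  have hδ : ∀ n x, (a n).δ x ≤ (1 / 2) ^ n := by
    intro n x
    induction n with
    | zero => exact le_of_eq rfl
    | succ n ih =>
      rw [ha, pow_succ]
      linarith [hn2 n (a n) x]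
  obtain ⟨H, hHc, hH⟩ := exists_lim (fun n => (a n).h) (fun n => (a n).hh.1) 1 (by
    intro n x
    rw [ha, dist_comm]
    linarith [hn1 n (a n) x, hδ n x, (a n).hδ0 x])
  have hd : ∀ n x, dist (H x) ((a n).h x) ≤ (a n).δ x := by
    intro n x
    have h2 : ∀ m, dist ((a (n + m)).h x) ((a n).h x) ≤ (a n).δ x - (a (n + m)).δ x := by
      intro m
      induction m with
      | zero => simp
      | succ m ih =>
        rw [← add_assoc, ha]
        linarith [hn1 (n + m) (a (n + m)) x, hn2 (n + m) (a (n + m)) x,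
          dist_triangle ((nx (n + m) (a (n + m))).h x) ((a (n + m)).h x) ((a n).h x)]
    refine le_of_tendsto ((hH x).dist tendsto_const_nhds) ?_
    filter_upwards [eventually_ge_atTop n] with k hk
    obtain ⟨m, rfl⟩ := Nat.exists_eq_add_of_le hk
    linarith [h2 m, (a (n + m)).hδ0 x]
  refine ⟨H, ⋃ n, (a n).K, hHc, Planar.iUnion _ fun n => (a n).hKp, fun x hx ε hε => ?_⟩
  obtain ⟨n, hn⟩ := exists_nat_one_div_lt hε
  obtain ⟨η, hη, h3⟩ := hn3 n (a n) H (hd (n + 1)) x (fun h => hx (mem_iUnion.2 ⟨n + 1, h⟩))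
  exact ⟨η, hη, fun Q q1 q2 q3 z hz => (h3 Q q1 q2 q3 z hz).trans hn.le⟩

end Pool.Agent.H.MP_be0572_gt
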