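import Pool.Agent.H.MP_be0572_gt.D

set_option autoImplicit false

namespace Pool.Agent.H.MP_be0572_gt
open Set Filter Topology

lemma plane_of (v : Fin 3 → ℝ) (hv : v ≠ 0) (x0 : X) :
    ∃ P : AffineSubspace ℝ X, Module.finrank ℝ P.direction = 2 ∧
      ∀ x : X, ∑ i, v i * x i = ∑ i, v i * x0 i → x ∈ P := by
  let l : Module.Dual ℝ X := ∑ i, v i • LinearMap.proj i
  have hl : ∀ x, l x = ∑ i, v i * x i := by
    intro x
    simp [l]
  have hl0 : l ≠ 0 := by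
    intro e
    apply hv
    funext j
    have := hl (Pi.single j 1)
    rw [e] at this
    simpa [Pi.single_apply] using this.symm
  refine ⟨AffineSubspace.mk' x0 (LinearMap.ker l), ?_, fun x hx => ?_⟩
  · rw [AffineSubspace.direction_mk']
    have := Module.Dual.finrank_ker_add_one_of_ne_zero hl0
    have h3 : Module.finrank ℝ X = 3 := by simp
    rw [h3] at this
    exact Nat.add_right_cancel (m := 1) this
  · rw [AffineSubspace.mem_mk', LinearMap.mem_ker, vsub_eq_sub, map_sub, hl, hl, hx, sub_self]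

lemma planes {A : Set X} (hA : Planar A) :
    ∃ P : ℕ → AffineSubspace ℝ X, (∀ i, Module.finrank ℝ (P i).direction = 2) ∧
      A ⊆ ⋃ k, (P k : Set X) := by
  obtain ⟨B, hB, h0, h⟩ := hA
  have h1 : ∀ p : Af, ∃ P : AffineSubspace ℝ X, Module.finrank ℝ P.direction = 2 ∧
      (p ≠ 0 → ∀ x, ev p x = 0 → x ∈ P) := by
    intro p
    by_cases hp : p.2 = 0
    · obtain ⟨P, hP, -⟩ := plane_of (Pi.single 0 1) (by
        intro e
        simpa using congrFun e 0) 0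
      refine ⟨P, hP, fun hp0 x hx => absurd ?_ hp0⟩
      simp only [ev, hp, Pi.zero_apply, zero_mul, Finset.sum_const_zero, add_zero] at hx
      exact Prod.ext hx hp
    by_cases hx : ∃ x0, ev p x0 = 0
    · obtain ⟨x0, hx0⟩ := hx
      obtain ⟨P, hP, h2⟩ := plane_of p.2 hp x0
      refine ⟨P, hP, fun _ x hx => h2 x ?_⟩
      unfold ev at hx hx0
      linarith
    · obtain ⟨P, hP, -⟩ := plane_of p.2 hp 0
      exact ⟨P, hP, fun _ x h3 => absurd ⟨x, h3⟩ hx⟩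
  choose P hP1 hP2 using h1
  obtain ⟨c, hc⟩ := (hB.insert 0).exists_eq_range (insert_nonempty _ _)
  refine ⟨fun k => P (c k), fun k => hP1 _, fun x hx => ?_⟩
  obtain ⟨p, hp, e⟩ := h x hx
  have : p ∈ range c := hc ▸ mem_insert_of_mem _ hp
  obtain ⟨k, rfl⟩ := this
  exact mem_iUnion.2 ⟨k, hP2 _ (h0 _ hp) x e⟩

def DS (H : C(X, ℝ × ℝ)) (x y : X) : Set ℝ :=
  {r | ∃ Q : Set X, IsPreconnected Q ∧ x ∈ Q ∧ y ∈ Q ∧ ∀ a ∈ Q, ∀ b ∈ Q, dist (H a) (H b) ≤ r}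

lemma DS_nonneg {H : C(X, ℝ × ℝ)} {x y : X} {r : ℝ} (h : r ∈ DS H x y) : 0 ≤ r := by
  obtain ⟨Q, -, hx, -, h⟩ := h
  exact dist_nonneg.trans (h x hx x hx)

lemma DS_bdd (H : C(X, ℝ × ℝ)) (x y : X) : BddBelow (DS H x y) := ⟨0, fun _ h => DS_nonneg h⟩

lemma DS_ne (H : C(X, ℝ × ℝ)) (x y : X) : (DS H x y).Nonempty := by
  have hc := isCompact_closedBall x (dist y x)
  obtain ⟨r, hr⟩ := Metric.isBounded_iff.1 (hc.image H.continuous).isBounded
  exact ⟨r, _, (convex_closedBall x (dist y x)).isPreconnected,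
    Metric.mem_closedBall_self dist_nonneg, Metric.mem_closedBall.2 le_rfl,
    fun a ha b hb => hr (mem_image_of_mem _ ha) (mem_image_of_mem _ hb)⟩

lemma DS_add {H : C(X, ℝ × ℝ)} {x y z : X} {r s : ℝ} (h1 : r ∈ DS H x y) (h2 : s ∈ DS H y z) :
    r + s ∈ DS H x z := by
  have hr := DS_nonneg h1
  have hs := DS_nonneg h2
  obtain ⟨Q, q1, q2, q3, q4⟩ := h1
  obtain ⟨R, r1, r2, r3, r4⟩ := h2
  refine ⟨Q ∪ R, q1.union y q3 r2 r1, Or.inl q2, Or.inr r3, ?_⟩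
  rintro a (ha | ha) b (hb | hb)
  · linarith [q4 a ha b hb]
  · linarith [q4 a ha y q3, r4 y r2 b hb, dist_triangle (H a) (H y) (H b)]
  · linarith [r4 a ha y r2, q4 y q3 b hb, dist_triangle (H a) (H y) (H b)]
  · linarith [r4 a ha b hb]

def Pt (_H : C(X, ℝ × ℝ)) : Type := X

noncomputable instance (H : C(X, ℝ × ℝ)) : PseudoMetricSpace (Pt H) where
  dist x y := sInf (DS H x y)
  dist_self x := le_antisymm
    (csInf_le (DS_bdd H x x) ⟨{x}, isPreconnected_singleton, rfl, rfl, by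
      rintro a rfl b rfl
      exact (dist_self _).le⟩)
    (le_csInf (DS_ne H x x) fun _ h => DS_nonneg h)
  dist_comm x y := by
    congr 1
    ext r
    exact ⟨fun ⟨Q, a, b, c, d⟩ => ⟨Q, a, c, b, d⟩, fun ⟨Q, a, b, c, d⟩ => ⟨Q, a, c, b, d⟩⟩
  dist_triangle x y z := by
    have h1 : ∀ s ∈ DS H y z, sInf (DS H x z) - s ≤ sInf (DS H x y) := fun s hs =>
      le_csInf (DS_ne H x y) fun r hr => by
        linarith [csInf_le (DS_bdd H x z) (DS_add hr hs)]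
    have h2 : sInf (DS H x z) - sInf (DS H x y) ≤ sInf (DS H y z) :=
      le_csInf (DS_ne H y z) fun s hs => by linarith [h1 s hs]
    linarith

def toPt (H : C(X, ℝ × ℝ)) (x : X) : Pt H := x

noncomputable def ff (H : C(X, ℝ × ℝ)) (x : X) : SeparationQuotient (Pt H) :=
  SeparationQuotient.mk (toPt H x)

lemma ff_surj (H : C(X, ℝ × ℝ)) (y : SeparationQuotient (Pt H)) : ∃ x, ff H x = y :=
  SeparationQuotient.surjective_mk y

lemma ff_dist (H : C(X, ℝ × ℝ)) (x y : X) : dist (ff H x) (ff H y) = sInf (DS H x y) :=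
  SeparationQuotient.dist_mk _ _

lemma ff_le {H : C(X, ℝ × ℝ)} {x y : X} {r : ℝ} (h : r ∈ DS H x y) :
    dist (ff H x) (ff H y) ≤ r := by
  rw [ff_dist]
  exact csInf_le (DS_bdd H x y) h

lemma ff_lt {H : C(X, ℝ × ℝ)} {x y : X} {r : ℝ} (h : dist (ff H x) (ff H y) < r) :
    ∃ Q : Set X, IsPreconnected Q ∧ x ∈ Q ∧ y ∈ Q ∧ ∀ a ∈ Q, dist (H a) (H x) < r := by
  rw [ff_dist] at h
  obtain ⟨s, ⟨Q, q1, q2, q3, q4⟩, hs⟩ := exists_lt_of_csInf_lt (DS_ne H x y) h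
  exact ⟨Q, q1, q2, q3, fun a ha => (q4 a ha x q2).trans_lt hs⟩

lemma ff_cont (H : C(X, ℝ × ℝ)) : Continuous (ff H) := by
  rw [Metric.continuous_iff]
  intro x ε hε
  obtain ⟨δ, hδ, h⟩ := Metric.continuous_iff.1 H.continuous x (ε / 3) (by linarith)
  refine ⟨δ, hδ, fun a ha => lt_of_le_of_lt (ff_le (r := 2 * ε / 3) ⟨Metric.ball x δ,
    (convex_ball x δ).isPreconnected, ha, Metric.mem_ball_self hδ, fun u hu v hv => ?_⟩)
    (by linarith)⟩
  linarith [h u hu, h v hv, dist_triangle_right (H u) (H v) (H x)]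

lemma avoid_int {S : Set ℝ} (hS : IsPreconnected S) (h : ∀ t ∈ S, ¬ IsI t) {a b : ℝ}
    (ha : a ∈ S) (hb : b ∈ S) : |a - b| ≤ 1 := by
  have h1 : ∀ u ∈ S, ∀ v ∈ S, u - v ≤ 1 := by
    intro u hu v hv
    by_contra h2
    push Not at h2
    refine h (⌈v⌉ : ℤ) (hS.ordConnected.out hv hu ⟨Int.le_ceil v, ?_⟩) ⟨_, rfl⟩
    linarith [Int.ceil_lt_add_one v]
  rw [abs_le]
  constructor <;> linarith [h1 a ha b hb, h1 b hb a ha]

def Wc (η : ℝ) (c : Fin 3) : Set (ℝ × ℝ) :=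
  {y | ¬ IsI (y.1 / η - (c : ℕ) / 3) ∧ ¬ IsI (y.2 / η - (c : ℕ) / 3)}

lemma Wc_open (η : ℝ) (c : Fin 3) : IsOpen (Wc η c) :=
  IsOpen.and (isClosed_isI (by fun_prop)).isOpen_compl (isClosed_isI (by fun_prop)).isOpen_compl

lemma isI_uniq {t : ℝ} {c d : Fin 3} (h1 : IsI (t - (c : ℕ) / 3)) (h2 : IsI (t - (d : ℕ) / 3)) :
    c = d := by
  obtain ⟨n, hn⟩ := h1
  obtain ⟨m, hm⟩ := h2
  have h3 : ((3 * n + (c : ℕ) : ℤ) : ℝ) = ((3 * m + (d : ℕ) : ℤ) : ℝ) := by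
    push_cast
    linarith
  have h4 := Int.cast_injective h3
  have := c.2
  have := d.2
  apply Fin.ext
  omega

lemma Wc_cover (η : ℝ) (y : ℝ × ℝ) : ∃ c, y ∈ Wc η c := by
  by_contra h
  push Not at h
  have h1 : ∀ c : Fin 3, IsI (y.1 / η - (c : ℕ) / 3) ∨ IsI (y.2 / η - (c : ℕ) / 3) := by
    intro c
    have := h c
    simp only [Wc, mem_ofPred_eq] at this
    tauto
  rcases h1 0 with a | a <;> rcases h1 1 with b | b <;> rcases h1 2 with c | c <;>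
    first
    | exact absurd (isI_uniq a b) (by decide)
    | exact absurd (isI_uniq a c) (by decide)
    | exact absurd (isI_uniq b c) (by decide)

lemma Wc_diam {η : ℝ} (hη : 0 < η) (c : Fin 3) (H : C(X, ℝ × ℝ)) {Q : Set X}
    (hQ : IsPreconnected Q) (h : Q ⊆ H ⁻¹' Wc η c) {a b : X} (ha : a ∈ Q) (hb : b ∈ Q) :
    dist (H a) (H b) ≤ η := by
  have h1 := avoid_int (hQ.image (fun x => (H x).1 / η - (c : ℕ) / 3) (by fun_prop))
    (by rintro _ ⟨x, hx, rfl⟩; exact (h hx).1) (mem_image_of_mem _ ha) (mem_image_of_mem _ hb)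
  have h2 := avoid_int (hQ.image (fun x => (H x).2 / η - (c : ℕ) / 3) (by fun_prop))
    (by rintro _ ⟨x, hx, rfl⟩; exact (h hx).2) (mem_image_of_mem _ ha) (mem_image_of_mem _ hb)
  rw [sub_sub_sub_cancel_right, ← sub_div, abs_div, abs_of_pos hη, div_le_one hη] at h1 h2
  rw [Prod.dist_eq, Real.dist_eq, Real.dist_eq]
  exact max_le h1 h2

lemma comp_sat (H : C(X, ℝ × ℝ)) {W : Set (ℝ × ℝ)} (hW : IsOpen W) (x0 : X) {x : X}
    (hx : x ∈ connectedComponentIn (H ⁻¹' W) x0) :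
    ∃ r > 0, ∀ z, dist (ff H x) (ff H z) < r → z ∈ connectedComponentIn (H ⁻¹' W) x0 := by
  have hxW : x ∈ H ⁻¹' W := connectedComponentIn_subset _ _ hx
  obtain ⟨r, hr, h⟩ := Metric.isOpen_iff.1 hW (H x) hxW
  refine ⟨r, hr, fun z hz => ?_⟩
  obtain ⟨Q, q1, q2, q3, q4⟩ := ff_lt hz
  rw [connectedComponentIn_eq hx]
  exact q1.subset_connectedComponentIn q2 (fun a ha => h (q4 a ha)) q3

theorem covers (H : C(X, ℝ × ℝ)) {G : Set X} (hG : IsCompact G) {ε : ℝ} (hε : 0 < ε) :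
    ∃ (n : ℕ) (U : Fin n → Set (SeparationQuotient (Pt H))), (∀ j, IsOpen (U j)) ∧
      (∀ j, ∀ a ∈ U j, ∀ b ∈ U j, dist a b < ε) ∧ ff H '' G ⊆ ⋃ j, U j ∧
      ∀ y ∈ ff H '' G, {j : Fin n | y ∈ U j}.ncard ≤ 3 := by
  classical
  let I := {p : Fin 3 × Set X // ∃ x0, p.2 = connectedComponentIn (H ⁻¹' Wc (ε / 2) p.1) x0}
  let V : I → Set (SeparationQuotient (Pt H)) := fun p => ff H '' p.1.2
  have hsat0 : ∀ (p : I), ∀ x ∈ p.1.2, ∃ r > 0, ∀ z, dist (ff H x) (ff H z) < r → z ∈ p.1.2 := by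
    intro p
    obtain ⟨x0, e⟩ := p.2
    rw [e]
    exact fun x hx => comp_sat H (Wc_open _ _) x0 hx
  have hsat : ∀ (p : I) (x : X), ff H x ∈ V p → x ∈ p.1.2 := by
    rintro p x ⟨z, hz, e⟩
    obtain ⟨r, hr, h⟩ := hsat0 p z hz
    exact h x (by rw [e, dist_self]; exact hr)
  have hVo : ∀ p, IsOpen (V p) := by
    intro p
    rw [Metric.isOpen_iff]
    rintro _ ⟨x, hx, rfl⟩
    obtain ⟨r, hr, h⟩ := hsat0 p x hx
    refine ⟨r, hr, fun y hy => ?_⟩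
    obtain ⟨z, rfl⟩ := ff_surj H y
    exact ⟨z, h z (by rw [dist_comm]; exact hy), rfl⟩
  have hdi : ∀ p : I, ∀ a ∈ V p, ∀ b ∈ V p, dist a b < ε := by
    intro p
    obtain ⟨x0, e⟩ := p.2
    rintro _ ⟨a, ha, rfl⟩ _ ⟨b, hb, rfl⟩
    rw [e] at ha hb
    refine lt_of_le_of_lt (ff_le (r := ε / 2) ⟨_, isPreconnected_connectedComponentIn, ha, hb,
      fun u hu v hv => ?_⟩) (half_lt_self hε)
    exact Wc_diam (half_pos hε) p.1.1 H isPreconnected_connectedComponentIn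
      (connectedComponentIn_subset _ _) hu hv
  have hinj : ∀ (p q : I) (x : X), p.1.1 = q.1.1 → x ∈ p.1.2 → x ∈ q.1.2 → p = q := by
    intro p q x e hp hq
    obtain ⟨x0, e0⟩ := p.2
    obtain ⟨x1, e1⟩ := q.2
    apply Subtype.ext
    refine Prod.ext e ?_
    rw [e0] at hp
    rw [e1] at hq
    rw [e0, e1, connectedComponentIn_eq hp, connectedComponentIn_eq hq, e]
  obtain ⟨t, ht⟩ := (hG.image (ff_cont H)).elim_finite_subcover V hVo (by
    rintro _ ⟨x, -, rfl⟩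
    obtain ⟨c, hc⟩ := Wc_cover (ε / 2) (H x)
    have hc' : x ∈ H ⁻¹' Wc (ε / 2) c := hc
    exact mem_iUnion.2 ⟨⟨(c, connectedComponentIn (H ⁻¹' Wc (ε / 2) c) x), x, rfl⟩, x,
      mem_connectedComponentIn hc', rfl⟩)
  refine ⟨t.card, fun j => V (t.equivFin.symm j).1, fun j => hVo _, fun j => hdi _, ?_, ?_⟩
  · intro y hy
    obtain ⟨p, hp, hy⟩ := mem_iUnion₂.1 (ht hy)
    refine mem_iUnion.2 ⟨t.equivFin ⟨p, hp⟩, ?_⟩
    rwa [Equiv.symm_apply_apply]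
  · rintro _ ⟨x, -, rfl⟩
    have h1 := Set.ncard_le_ncard_of_injOn (s := {j : Fin t.card | ff H x ∈
      V (t.equivFin.symm j).1}) (t := (univ : Set (Fin 3)))
      (fun j => (t.equivFin.symm j).1.1.1) (fun _ _ => mem_univ _) ?_ finite_univ
    · simpa using h1
    · intro i hi j hj e
      apply t.equivFin.symm.injective
      apply Subtype.ext
      exact hinj _ _ x e (hsat _ x hi) (hsat _ x hj)

theorem main : ∃ (H : C(X, ℝ × ℝ)) (P : ℕ → AffineSubspace ℝ X),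
    (∀ i, Module.finrank ℝ (P i).direction = 2) ∧
    ∀ x z : X, x ≠ z → ff H x = ff H z → x ∈ ⋃ k, (P k : Set X) := by
  obtain ⟨H, A, hH, hA, h⟩ := exists_map
  obtain ⟨P, hP, hAP⟩ := planes hA
  refine ⟨⟨H, hH⟩, P, hP, fun x z hxz e => hAP (by_contra fun hx => ?_)⟩
  have hd : 0 < dist z x := dist_pos.2 hxz.symm
  obtain ⟨η, hη, h1⟩ := h x hx (dist z x / 2) (half_pos hd)
  obtain ⟨Q, q1, q2, q3, q4⟩ := ff_lt (H := ⟨H, hH⟩) (x := x) (y := z) (r := η)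
    (by rw [e, dist_self]; exact hη)
  linarith [h1 Q q1 q2 q4 z q3]

end Pool.Agent.H.MP_be0572_gt
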